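import Pool.Agent.Y821.PW.G

set_option autoImplicit false
set_option linter.unusedSectionVars false

namespace Pool.Agent.Y821.PW

open Polynomial Pool.Agent Pool.Agent.Helper35

variable {e V Mq : ℕ → ℕ} (X : SData e V Mq)

/-- The bound at the `m`-th root of `ξ`. -/
theorem bound_root {m : ℕ} (hm : 0 < m)
    (hEA : ∀ k, e k = 0 ∨ Nat.Coprime (EA k * (e k + 1)) m)
    (hM : Demand e Mq) (hmono : Monotone V) (hV : ∀ j, 22 ≤ V j) (hV40 : ∀ j, 40 * (j + 1) ≤ V j)
    (hVbig : ∀ j, 40 * m * (m * (j + 1)) + m ≤ V j) (η : ℝ) (hη0 : 0 < η) (hη1 : η ≤ 1)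
    (hηm : η ^ m = X.ξ) (n : ℕ) :
    ∃ c : ℝ, 0 < c ∧ ∀ P : ℤ[X], P ≠ 0 → P.natDegree ≤ n →
      c ≤ |aeval η P| * (ht P : ℝ) ^ (V (n / m) + 1 + (m * (V 0 + 1) + 1)) := by
  have hne := W72.ne_zero_at X hM hV hmono hV40
  apply general_bound
  intro μ hμ hμn
  obtain ⟨c0, hc0, hcc0⟩ := X.bound_all hM hV (n / m) (V (n / m)) (hV40 _)
    (fun j hj => hmono hj.le)
  obtain ⟨c1, hc1, hcc1⟩ := W72.pred_bound X hne μ
  have hζ := Complex.isPrimitiveRoot_exp m (by omega)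
  obtain ⟨ζ, hζd⟩ : ∃ ζ, ζ = Complex.exp (2 * Real.pi * Complex.I / m) := ⟨_, rfl⟩
  rw [← hζd] at hζ
  obtain ⟨L, hL⟩ : ∃ L : ℝ, L = (μ : ℝ) + 1 := ⟨_, rfl⟩
  have hL1 : 1 ≤ L := by
    have : (0 : ℝ) ≤ μ := Nat.cast_nonneg μ
    linarith
  obtain ⟨K, hK⟩ : ∃ K : ℝ, K = 2 ^ μ * ((μ : ℝ) + 1) ^ m := ⟨_, rfl⟩
  have hK1 : 1 ≤ K := by
    rw [hK, ← hL]
    have h1 : (1 : ℝ) ≤ 2 ^ μ := one_le_pow₀ (by norm_num)
    have h2 : (1 : ℝ) ≤ L ^ m := one_le_pow₀ hL1
    calc (1 : ℝ) = 1 * 1 := by norm_num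
      _ ≤ _ := by gcongr
  obtain ⟨c2, hc2d⟩ : ∃ c2 : ℝ, c2 = c1 / (L ^ (m - 1) * K ^ (40 * (μ + 1))) := ⟨_, rfl⟩
  have hc2 : 0 < c2 := by rw [hc2d]; positivity
  -- constants for the exceptional case
  obtain ⟨K1, hK1d⟩ : ∃ K1 : ℝ, K1 = 2 ^ μ * ((μ : ℝ) + 1) * K := ⟨_, rfl⟩
  have hK1' : 1 ≤ K1 := by
    rw [hK1d, ← hL]
    have h1 : (1 : ℝ) ≤ 2 ^ μ := one_le_pow₀ (by norm_num)
    calc (1 : ℝ) = 1 * 1 * 1 := by norm_num
      _ ≤ _ := by gcongr
  obtain ⟨K2, hK2d⟩ : ∃ K2 : ℝ, K2 = ((m : ℝ) + 1) * (2 ^ m * ((m : ℝ) + 1)) := ⟨_, rfl⟩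
  have hK2 : 1 ≤ K2 := by
    rw [hK2d]
    have h1 : (1 : ℝ) ≤ 2 ^ m := one_le_pow₀ (by norm_num)
    have h2 : (1 : ℝ) ≤ (m : ℝ) + 1 := by
      have : (0 : ℝ) ≤ m := Nat.cast_nonneg m
      linarith
    calc (1 : ℝ) = 1 * (1 * 1) := by norm_num
      _ ≤ _ := by gcongr
  obtain ⟨C3, hC3d⟩ : ∃ C3 : ℝ, C3 = K2 * K1 ^ (V 0 + 1) := ⟨_, rfl⟩
  have hC3 : 0 < C3 := by rw [hC3d]; positivity
  refine ⟨⌈1 / c0⌉₊ + ⌈1 / c2⌉₊ + ⌈C3⌉₊, fun P hP hPd hH => ?_⟩
  have hP0 := hP.ne_zero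
  have hH1 : (1 : ℝ) ≤ ht P := by exact_mod_cast ht_pos hP0
  have hHc0 : 1 ≤ c0 * ht P := by
    have h1 : 1 / c0 ≤ ht P := (Nat.le_ceil _).trans (by exact_mod_cast (by omega))
    rw [div_le_iff₀ hc0] at h1
    linarith
  have hHc2 : 1 ≤ c2 * ht P := by
    have h1 : 1 / c2 ≤ ht P := (Nat.le_ceil _).trans (by exact_mod_cast (by omega))
    rw [div_le_iff₀ hc2] at h1
    linarith
  have hHC3 : C3 ≤ ht P := (Nat.le_ceil _).trans (by exact_mod_cast (by omega))
  by_cases hA : ∃ F : ℤ[X], expand ℤ m F = P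
  · -- a polynomial in `X^m`
    obtain ⟨F, hF⟩ := hA
    have hF0 : F ≠ 0 := by
      rintro rfl
      rw [map_zero] at hF
      exact hP0 hF.symm
    have hFdeg : F.natDegree ≤ n / m := by
      have h2 := congrArg natDegree hF
      rw [natDegree_expand] at h2
      rw [Nat.le_div_iff_mul_le hm]
      omega
    have h2 := hcc0 F hF0 hFdeg
    have hv : aeval η P = aeval X.ξ F := by rw [← hF, expand_aeval, hηm]
    have hh : ht F ≤ ht P := by
      apply ht_le_of
      intro i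
      have : F.coeff i = P.coeff (i * m) := by
        rw [← hF, coeff_expand_mul hm]
      rw [this]
      exact natAbs_coeff_le_ht _ _
    have hh' : (ht F : ℝ) ≤ ht P := by exact_mod_cast hh
    rw [← hv] at h2
    calc (1 : ℝ) ≤ c0 * ht P := hHc0
      _ ≤ (|aeval η P| * (ht F : ℝ) ^ (V (n / m))) * ht P := by gcongr
      _ ≤ (|aeval η P| * (ht P : ℝ) ^ (V (n / m))) * ht P := by gcongr
      _ = |aeval η P| * (ht P : ℝ) ^ (V (n / m) + 1) := by ring
      _ ≤ _ := by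
          have : (ht P : ℝ) ^ (V (n / m) + 1) ≤
              (ht P : ℝ) ^ (V (n / m) + 1 + (m * (V 0 + 1) + 1)) :=
            pow_le_pow_right₀ hH1 (by omega)
          gcongr
  · obtain ⟨hE0, hEdeg, -⟩ := NE_lead hm hP0
    have hEht := NE_ht hm hP0 (n := μ) (by omega)
    rw [← hK] at hEht
    by_cases hG : ∀ k, ¬ X.S k ∣ NE m P
    · have h1 := hcc1 (NE m P) hG hE0 (by omega)
      have hval : |aeval X.ξ (NE m P)| ≤ |aeval η P| * (L ^ (m - 1) * (ht P : ℝ) ^ (m - 1)) := by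
        have h2 := NE_prod' hm P hζ (η : ℂ)
        have h3 : ‖aeval ((η : ℂ) ^ m) (NE m P)‖ = |aeval X.ξ (NE m P)| := by
          have : ((η : ℂ)) ^ m = ((X.ξ : ℝ) : ℂ) := by rw [← hηm]; push_cast; rfl
          rw [this, aevalC_real, Complex.norm_real, Real.norm_eq_abs]
        rw [← h3, h2, norm_prod, ← Finset.mul_prod_erase _ _ (Finset.mem_univ (⟨0, hm⟩ : Fin m))]
        have h4 : ‖aeval (ζ ^ (((⟨0, hm⟩ : Fin m) : ℕ)) * (η : ℂ)) P‖ = |aeval η P| := by
          simp only [pow_zero, one_mul]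
          rw [aevalC_real, Complex.norm_real, Real.norm_eq_abs]
        rw [h4]
        gcongr
        calc ∏ i ∈ Finset.univ.erase (⟨0, hm⟩ : Fin m), ‖aeval (ζ ^ (i : ℕ) * (η : ℂ)) P‖
            ≤ ∏ _i ∈ Finset.univ.erase (⟨0, hm⟩ : Fin m), (L * ht P) := by
              refine Finset.prod_le_prod (fun i _ => norm_nonneg _) (fun i _ => ?_)
              have h5 := norm_aeval_le P (ζ ^ (i : ℕ) * (η : ℂ)) (by
                rw [norm_mul, norm_pow, hζ.norm'_eq_one (by omega), one_pow, one_mul,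
                  Complex.norm_real, Real.norm_eq_abs, abs_of_pos hη0]
                exact hη1)
              rwa [hPd, ← hL] at h5
          _ = (L * ht P) ^ (m - 1) := by
              rw [Finset.prod_const, Finset.card_erase_of_mem (Finset.mem_univ _),
                Finset.card_univ, Fintype.card_fin]
          _ = _ := by rw [mul_pow]
      have h3 : (ht (NE m P) : ℝ) ^ (40 * (μ + 1)) ≤
          K ^ (40 * (μ + 1)) * (ht P : ℝ) ^ (m * (40 * (μ + 1))) := by
        calc (ht (NE m P) : ℝ) ^ (40 * (μ + 1)) ≤ (K * (ht P : ℝ) ^ m) ^ (40 * (μ + 1)) := by gcongr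
          _ = _ := by rw [mul_pow, ← pow_mul]
      have h4 : c1 ≤ (|aeval η P| * (L ^ (m - 1) * (ht P : ℝ) ^ (m - 1))) *
          (K ^ (40 * (μ + 1)) * (ht P : ℝ) ^ (m * (40 * (μ + 1)))) := by
        refine h1.trans ?_
        gcongr
      have h5 : c2 ≤ |aeval η P| * (ht P : ℝ) ^ (m * (40 * (μ + 1)) + (m - 1)) := by
        rw [hc2d, div_le_iff₀ (by positivity)]
        refine h4.trans (le_of_eq ?_)
        rw [pow_add]; ring
      have h6 : m * (40 * (μ + 1)) + (m - 1) + 1 ≤ V (n / m) := by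
        have h7 := hVbig (n / m)
        have h8 : μ + 1 ≤ m * (n / m + 1) := by
          have := Nat.lt_mul_div_succ n hm
          omega
        have h9 : m * (40 * (μ + 1)) ≤ m * (40 * (m * (n / m + 1))) := by gcongr
        have h10 : m * (40 * (m * (n / m + 1))) = 40 * m * (m * (n / m + 1)) := by ring
        omega
      calc (1 : ℝ) ≤ c2 * ht P := hHc2
        _ ≤ (|aeval η P| * (ht P : ℝ) ^ (m * (40 * (μ + 1)) + (m - 1))) * ht P := by gcongr
        _ = |aeval η P| * (ht P : ℝ) ^ (m * (40 * (μ + 1)) + (m - 1) + 1) := by ring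
        _ ≤ _ := by
            have : (ht P : ℝ) ^ (m * (40 * (μ + 1)) + (m - 1) + 1) ≤
                (ht P : ℝ) ^ (V (n / m) + 1 + (m * (V 0 + 1) + 1)) :=
              pow_le_pow_right₀ hH1 (by omega)
            gcongr
    · push Not at hG
      obtain ⟨k, hk⟩ := hG
      have hSq := (X.S_props k).1
      have hSd : (X.S k).natDegree = e k + 1 := (X.S_props k).2.2.1
      have hS0 := (X.S_irr k).ne_zero
      have hek : e k = 0 := by
        rcases hEA k with h | h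
        · exact h
        · exfalso
          apply hA
          refine alg_core2 hm hSq hP hk (X.prime k) (A := EA k * (e k + 1))
            (b := (TD (e k)).T.leadingCoeff) (X.plead k) ?_ (W72.S_coeff_zero' X k) h
          rw [X.lead_S, pow_mul]
          congr 2
      obtain ⟨hS, hhS⟩ : ∃ a : ℝ, a = (ht (X.S k) : ℝ) := ⟨_, rfl⟩
      have hS1 : 1 ≤ hS := by rw [hhS]; exact_mod_cast ht_pos hS0
      have h1 := X.spec_lower hM hV k 1 one_ne_zero
      rw [C_1, one_mul, ← hhS, hek] at h1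
      -- height of S_k
      have h2 : hS ≤ K1 * (ht P : ℝ) ^ m := by
        have h3 := W72.ht_dvd hE0 hk (n := μ) (by omega)
        rw [← hhS] at h3
        calc hS ≤ 2 ^ μ * ((μ : ℝ) + 1) * ht (NE m P) := h3
          _ ≤ 2 ^ μ * ((μ : ℝ) + 1) * (K * (ht P : ℝ) ^ m) := by gcongr
          _ = _ := by rw [hK1d]; ring
      -- the primitive part
      obtain ⟨p, hp⟩ : ∃ p, p = P.primPart := ⟨_, rfl⟩
      obtain ⟨g, hg⟩ : ∃ g, g = P.content := ⟨_, rfl⟩
      have hPfac : P = C g * p := by rw [hg, hp]; exact P.eq_C_content_mul_primPart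
      have hg0 : g ≠ 0 := by
        intro h
        rw [h, C_0, zero_mul] at hPfac
        exact hP0 hPfac
      have hpprim : p.IsPrimitive := by rw [hp]; exact P.isPrimitive_primPart
      have hpE : p ∣ expand ℤ m (X.S k) := by
        apply (IsPrimitive.Int.dvd_iff_map_cast_dvd_map_cast _ _ hpprim).2
        have h3 : p.map (Int.castRingHom ℚ) ∣ P.map (Int.castRingHom ℚ) := by
          rw [hPfac, Polynomial.map_mul]; exact dvd_mul_left _ _
        exact h3.trans (dvd_expand hm hSq hP hk)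
      obtain ⟨W, hW⟩ := hpE
      have hexp0 : expand ℤ m (X.S k) ≠ 0 := by
        intro h
        exact hS0 ((expand_eq_zero hm).mp h)
      have hexpd : (expand ℤ m (X.S k)).natDegree ≤ m := by
        rw [natDegree_expand, hSd, hek]; omega
      have hWd : W ∣ expand ℤ m (X.S k) := ⟨p, by rw [hW, mul_comm]⟩
      have hhW : (ht W : ℝ) ≤ 2 ^ m * ((m : ℝ) + 1) * hS := by
        have h3 := W72.ht_dvd hexp0 hWd hexpd
        have h4 : ht (expand ℤ m (X.S k)) ≤ ht (X.S k) := by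
          apply ht_le_of
          intro i
          rw [coeff_expand hm]
          split_ifs
          · exact natAbs_coeff_le_ht _ _
          · simp
        have h5 : (ht (expand ℤ m (X.S k)) : ℝ) ≤ hS := by rw [hhS]; exact_mod_cast h4
        refine h3.trans ?_
        gcongr
      have hWval : |aeval η W| ≤ K2 * hS := by
        have h3 := abs_aeval_le W η (by rw [abs_of_pos hη0]; exact hη1)
        have h4 : (W.natDegree : ℝ) ≤ m := by
          exact_mod_cast (natDegree_le_of_dvd hWd hexp0).trans hexpd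
        calc |aeval η W| ≤ ((W.natDegree : ℝ) + 1) * ht W := h3
          _ ≤ ((m : ℝ) + 1) * (2 ^ m * ((m : ℝ) + 1) * hS) := by gcongr
          _ = _ := by rw [hK2d]; ring
      have hval : |aeval X.ξ (X.S k)| = |aeval η p| * |aeval η W| := by
        rw [← abs_mul, ← map_mul, ← hW, expand_aeval, hηm]
      have hgR : (1 : ℝ) ≤ |(g : ℝ)| := by exact_mod_cast Int.one_le_abs hg0
      have hpP : |aeval η p| ≤ |aeval η P| := by
        have : |aeval η P| = |(g : ℝ)| * |aeval η p| := by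
          conv_lhs => rw [hPfac]
          rw [map_mul, abs_mul, aeval_C]; simp
        rw [this]
        exact le_mul_of_one_le_left (abs_nonneg _) hgR
      have h3 : 1 ≤ |aeval η P| * (K2 * hS ^ (V 0 + 1)) := by
        calc (1 : ℝ) ≤ |aeval X.ξ (X.S k)| * hS ^ (V 0) := h1
          _ = |aeval η p| * |aeval η W| * hS ^ (V 0) := by rw [hval]
          _ ≤ |aeval η P| * (K2 * hS) * hS ^ (V 0) := by gcongr
          _ = _ := by ring
      have h4 : hS ^ (V 0 + 1) ≤ K1 ^ (V 0 + 1) * (ht P : ℝ) ^ (m * (V 0 + 1)) := by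
        calc hS ^ (V 0 + 1) ≤ (K1 * (ht P : ℝ) ^ m) ^ (V 0 + 1) := by gcongr
          _ = _ := by rw [mul_pow, ← pow_mul]
      calc (1 : ℝ) ≤ |aeval η P| * (K2 * hS ^ (V 0 + 1)) := h3
        _ ≤ |aeval η P| * (K2 * (K1 ^ (V 0 + 1) * (ht P : ℝ) ^ (m * (V 0 + 1)))) := by gcongr
        _ = |aeval η P| * (C3 * (ht P : ℝ) ^ (m * (V 0 + 1))) := by rw [hC3d]; ring
        _ ≤ |aeval η P| * (ht P * (ht P : ℝ) ^ (m * (V 0 + 1))) := by gcongr
        _ = |aeval η P| * (ht P : ℝ) ^ (m * (V 0 + 1) + 1) := by ring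
        _ ≤ _ := by
            have : (ht P : ℝ) ^ (m * (V 0 + 1) + 1) ≤
                (ht P : ℝ) ^ (V (n / m) + 1 + (m * (V 0 + 1) + 1)) :=
              pow_le_pow_right₀ hH1 (by omega)
            gcongr

end Pool.Agent.Y821.PW
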