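import Mathlib
import Pool.Agent.W72.SqD

set_option autoImplicit false
set_option linter.unusedSectionVars false

namespace Pool.Agent.Y821.PW

open Polynomial Pool.Agent Pool.Agent.Helper35

/-- The companion matrix of `Y^m - x`. -/
def cm {A : Type*} [CommRing A] (m : ℕ) (x : A) : Matrix (Fin m) (Fin m) A :=
  fun i j => if (j : ℕ) + 1 = i then 1 else if (i : ℕ) = 0 ∧ (j : ℕ) + 1 = m then x else 0

/-- The left eigenvector. -/
def vv {A : Type*} [CommRing A] (m : ℕ) (l : A) : Fin m → A := fun i => l ^ (i : ℕ)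

lemma vv_cm {A : Type*} [CommRing A] {m : ℕ} (hm : 0 < m) (l : A) :
    Matrix.vecMul (vv m l) (cm m (l ^ m)) = l • vv m l := by
  funext j
  simp only [Matrix.vecMul, dotProduct, Pi.smul_apply, smul_eq_mul]
  by_cases h : (j : ℕ) + 1 < m
  · rw [Finset.sum_eq_single (⟨(j : ℕ) + 1, h⟩ : Fin m)]
    · simp only [cm, vv, if_true, mul_one]
      rw [pow_succ]; ring
    · intro i _ hi
      have h1 : ¬ ((j : ℕ) + 1 = i) := fun h' => hi (Fin.ext h'.symm)
      have h2 : ¬ ((i : ℕ) = 0 ∧ (j : ℕ) + 1 = m) := fun h' => by omega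
      simp only [cm, if_neg h1, if_neg h2, mul_zero]
    · intro h'; exact absurd (Finset.mem_univ _) h'
  · have hj : (j : ℕ) + 1 = m := by have := j.2; omega
    rw [Finset.sum_eq_single (⟨0, hm⟩ : Fin m)]
    · have h1 : ¬ ((j : ℕ) + 1 = ((⟨0, hm⟩ : Fin m) : ℕ)) := by simp
      simp only [cm, if_neg h1]
      simp only [vv, hj, and_self, if_true, pow_zero, one_mul]
      calc l ^ m = l ^ ((j : ℕ) + 1) := by rw [hj]
        _ = l * l ^ (j : ℕ) := by ring
    · intro i _ hi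
      have h1 : ¬ ((j : ℕ) + 1 = i) := by have := i.2; omega
      have h2 : ¬ ((i : ℕ) = 0 ∧ (j : ℕ) + 1 = m) := fun h' => hi (Fin.ext h'.1)
      simp only [cm, if_neg h1, if_neg h2, mul_zero]
    · intro h'; exact absurd (Finset.mem_univ _) h'

lemma vv_pow {A : Type*} [CommRing A] {m : ℕ} (hm : 0 < m) (l : A) (k : ℕ) :
    Matrix.vecMul (vv m l) ((cm m (l ^ m)) ^ k) = l ^ k • vv m l := by
  induction k with
  | zero => simp
  | succ k ih =>
    rw [pow_succ, ← Matrix.vecMul_vecMul, ih, Matrix.smul_vecMul, vv_cm hm, smul_smul, pow_succ]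

lemma vv_aeval {A : Type*} [CommRing A] {m : ℕ} (hm : 0 < m) (l : A) (P : ℤ[X]) :
    Matrix.vecMul (vv m l) (aeval (cm m (l ^ m)) P) = (aeval l P) • vv m l := by
  induction P using Polynomial.induction_on' with
  | add p q hp hq => rw [map_add, map_add, Matrix.vecMul_add, hp, hq, add_smul]
  | monomial n a =>
    rw [aeval_monomial, aeval_monomial, ← Algebra.smul_def, ← Algebra.smul_def, Matrix.vecMul_smul,
      vv_pow hm, smul_assoc]

/-- The norm polynomial. -/
noncomputable def NE (m : ℕ) (P : ℤ[X]) : ℤ[X] := (aeval (cm m (X : ℤ[X])) P).det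

lemma NE_aeval {A : Type*} [CommRing A] (m : ℕ) (P : ℤ[X]) (x : A) :
    aeval x (NE m P) = (aeval (cm m x) P).det := by
  have h1 : ((aeval x : ℤ[X] →ₐ[ℤ] A)).mapMatrix (cm m (X : ℤ[X])) = cm m x := by
    ext i j
    simp only [AlgHom.mapMatrix_apply, Matrix.map_apply, cm]
    split_ifs <;> simp
  unfold NE
  rw [AlgHom.map_det, ← aeval_algHom_apply, h1]

lemma NE_prod {m : ℕ} (hm : 0 < m) (P : ℤ[X]) {ζ : ℂ} (hζ : IsPrimitiveRoot ζ m) {l : ℂ}
    (hl : l ≠ 0) : aeval (l ^ m) (NE m P) = ∏ i : Fin m, aeval (ζ ^ (i : ℕ) * l) P := by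
  rw [NE_aeval]
  set v : Fin m → ℂ := fun i => ζ ^ (i : ℕ) * l with hv
  have hvm : ∀ i, v i ^ m = l ^ m := by
    intro i
    rw [hv]
    simp only
    rw [mul_pow, ← pow_mul, mul_comm (i : ℕ) m, pow_mul, hζ.pow_eq_one, one_pow, one_mul]
  have hinj : Function.Injective v := by
    intro i j hij
    have h1 : ζ ^ (i : ℕ) = ζ ^ (j : ℕ) := mul_right_cancel₀ hl hij
    exact Fin.ext (hζ.pow_inj i.2 j.2 h1)
  have hV : (Matrix.vandermonde v).det ≠ 0 := Matrix.det_vandermonde_ne_zero_iff.2 hinj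
  have hmul : Matrix.vandermonde v * aeval (cm m (l ^ m)) P =
      Matrix.diagonal (fun i => aeval (v i) P) * Matrix.vandermonde v := by
    ext i j
    rw [Matrix.diagonal_mul]
    have h1 := congrFun (vv_aeval hm (v i) P) j
    rw [hvm] at h1
    simp only [Pi.smul_apply, smul_eq_mul] at h1
    rw [Matrix.vandermonde_apply]
    exact h1
  have hdet := congrArg Matrix.det hmul
  rw [Matrix.det_mul, Matrix.det_mul, Matrix.det_diagonal, mul_comm] at hdet
  exact mul_right_cancel₀ hV hdet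

/-- the rotated polynomial -/
noncomputable def rp (P : ℤ[X]) (z : ℂ) : ℂ[X] := (P.map (Int.castRingHom ℂ)).comp (C z * X)

lemma rp_eval (P : ℤ[X]) (z x : ℂ) : (rp P z).eval x = aeval (z * x) P := by
  unfold rp
  rw [eval_comp, eval_mul, eval_C, eval_X, eval_map]
  rfl

lemma aeval_map_eval (E : ℤ[X]) (x : ℂ) : (E.map (Int.castRingHom ℂ)).eval x = aeval x E := by
  rw [eval_map]; rfl

lemma NE_poly {m : ℕ} (hm : 0 < m) (P : ℤ[X]) {ζ : ℂ} (hζ : IsPrimitiveRoot ζ m) :
    expand ℂ m ((NE m P).map (Int.castRingHom ℂ)) = ∏ i : Fin m, rp P (ζ ^ (i : ℕ)) := by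
  apply eq_of_infinite_eval_eq
  apply Set.Infinite.mono (s := {x : ℂ | x ≠ 0})
  · intro x hx
    show eval x _ = eval x _
    rw [expand_eval, aeval_map_eval, NE_prod hm P hζ hx, eval_prod]
    simp only [rp_eval]
  · have : {x : ℂ | x ≠ 0} = ({0} : Set ℂ)ᶜ := by ext; simp
    rw [this]
    exact (Set.finite_singleton _).infinite_compl

lemma NE_prod' {m : ℕ} (hm : 0 < m) (P : ℤ[X]) {ζ : ℂ} (hζ : IsPrimitiveRoot ζ m) (l : ℂ) :
    aeval (l ^ m) (NE m P) = ∏ i : Fin m, aeval (ζ ^ (i : ℕ) * l) P := by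
  have h := congrArg (eval l) (NE_poly hm P hζ)
  rw [expand_eval, aeval_map_eval, eval_prod] at h
  simpa only [rp_eval] using h

lemma rp_natDegree (P : ℤ[X]) {z : ℂ} (hz : z ≠ 0) : (rp P z).natDegree = P.natDegree := by
  unfold rp
  rw [natDegree_comp, natDegree_C_mul_X _ hz, mul_one,
    natDegree_map_eq_of_injective (RingHom.injective_int _)]

lemma rp_lead (P : ℤ[X]) {z : ℂ} (hz : z ≠ 0) :
    (rp P z).leadingCoeff = (P.leadingCoeff : ℂ) * z ^ P.natDegree := by
  rw [leadingCoeff, rp_natDegree P hz]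
  unfold rp
  rw [comp_C_mul_X_coeff, coeff_map]
  simp

lemma rp_ne {P : ℤ[X]} (hP : P ≠ 0) {z : ℂ} (hz : z ≠ 0) : rp P z ≠ 0 := by
  intro h
  have := rp_lead P hz
  rw [h, leadingCoeff_zero] at this
  have h2 : (P.leadingCoeff : ℂ) ≠ 0 := by exact_mod_cast leadingCoeff_ne_zero.2 hP
  exact (mul_ne_zero h2 (pow_ne_zero _ hz)) this.symm

lemma NE_lead {m : ℕ} (hm : 0 < m) {P : ℤ[X]} (hP : P ≠ 0) :
    NE m P ≠ 0 ∧ (NE m P).natDegree = P.natDegree ∧
      (NE m P).leadingCoeff.natAbs = P.leadingCoeff.natAbs ^ m := by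
  have hζ := Complex.isPrimitiveRoot_exp m (by omega)
  set ζ := Complex.exp (2 * Real.pi * Complex.I / m) with hζd
  have hζ0 : ζ ≠ 0 := hζ.ne_zero (by omega)
  have hpoly := NE_poly hm P hζ
  have hne : ∏ i : Fin m, rp P (ζ ^ (i : ℕ)) ≠ 0 :=
    Finset.prod_ne_zero_iff.2 (fun i _ => rp_ne hP (pow_ne_zero _ hζ0))
  have h0 : NE m P ≠ 0 := by
    intro h
    rw [h, Polynomial.map_zero, map_zero] at hpoly
    exact hne hpoly.symm
  refine ⟨h0, ?_, ?_⟩
  · have h1 := congrArg natDegree hpoly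
    rw [natDegree_expand, natDegree_map_eq_of_injective (RingHom.injective_int _),
      natDegree_prod _ _ (fun i _ => rp_ne hP (pow_ne_zero _ hζ0))] at h1
    simp only [rp_natDegree P (pow_ne_zero _ hζ0), Finset.sum_const, Finset.card_univ,
      Fintype.card_fin, smul_eq_mul] at h1
    rw [mul_comm] at h1
    exact Nat.eq_of_mul_eq_mul_left hm h1
  · have h1 := congrArg leadingCoeff hpoly
    rw [leadingCoeff_expand hm, leadingCoeff_prod,
      leadingCoeff_map_of_injective (RingHom.injective_int _)] at h1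
    have h2 := congrArg norm h1
    simp only [rp_lead P (pow_ne_zero _ hζ0), norm_prod, norm_mul, norm_pow,
      hζ.norm'_eq_one (by omega), one_pow, mul_one, Finset.prod_const, Finset.card_univ,
      Fintype.card_fin] at h2
    have h3 : ((NE m P).leadingCoeff.natAbs : ℝ) = (P.leadingCoeff.natAbs : ℝ) ^ m := by
      have e1 : ∀ a : ℤ, ((a.natAbs : ℕ) : ℝ) = ‖(a : ℂ)‖ := by
        intro a; simp [Nat.cast_natAbs]
      rw [e1, e1]
      exact h2
    exact_mod_cast h3

lemma NE_coeff_zero {m : ℕ} (hm : 0 < m) (P : ℤ[X]) :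
    (NE m P).coeff 0 = (P.coeff 0) ^ m := by
  have hζ := Complex.isPrimitiveRoot_exp m (by omega)
  have h := NE_prod' hm P hζ 0
  rw [zero_pow (by omega)] at h
  simp only [mul_zero, Finset.prod_const, Finset.card_univ, Fintype.card_fin] at h
  have e : ∀ Q : ℤ[X], aeval (0 : ℂ) Q = ((Q.coeff 0 : ℤ) : ℂ) := by
    intro Q
    rw [← coeff_zero_eq_aeval_zero']
    simp
  rw [e, e] at h
  exact_mod_cast h

end Pool.Agent.Y821.PW
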