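import Pool.Agent.Y821.PW.A

set_option autoImplicit false
set_option linter.unusedSectionVars false

namespace Pool.Agent.Y821.PW

open Polynomial Pool.Agent Pool.Agent.Helper35

lemma norm_aeval_le (P : ℤ[X]) (w : ℂ) (hw : ‖w‖ ≤ 1) :
    ‖aeval w P‖ ≤ ((P.natDegree : ℝ) + 1) * ht P := by
  rw [aeval_eq_sum_range]
  refine (norm_sum_le _ _).trans ?_
  calc ∑ i ∈ Finset.range (P.natDegree + 1), ‖P.coeff i • w ^ i‖
      ≤ ∑ i ∈ Finset.range (P.natDegree + 1), (ht P : ℝ) := by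
        refine Finset.sum_le_sum (fun i _ => ?_)
        rw [zsmul_eq_mul, norm_mul, norm_pow]
        have h2 : ‖((P.coeff i : ℤ) : ℂ)‖ = ((P.coeff i).natAbs : ℝ) := by
          simp [Nat.cast_natAbs]
        rw [h2]
        have h3 : ((P.coeff i).natAbs : ℝ) ≤ ht P := by exact_mod_cast natAbs_coeff_le_ht P i
        calc ((P.coeff i).natAbs : ℝ) * ‖w‖ ^ i ≤ (ht P : ℝ) * 1 := by
              gcongr
              exact pow_le_one₀ (norm_nonneg _) hw
          _ = _ := mul_one _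
    _ = _ := by rw [Finset.sum_const, Finset.card_range, nsmul_eq_mul]; push_cast; ring

open Filter MeasureTheory Set Real in
lemma mahler_le_of_circle {p : ℂ[X]} (hp : p ≠ 0) {B : ℝ} (hB : 0 < B)
    (h : ∀ z : ℂ, ‖z‖ = 1 → ‖eval z p‖ ≤ B) : p.mahlerMeasure ≤ B := by
  rw [show B = rexp (circleAverage (fun _ ↦ log B) 0 1)
    by simp [circleAverage_def, mul_assoc, exp_log hB], mahlerMeasure_def_of_ne_zero hp,
    circleAverage_def, smul_eq_mul]
  gcongr
  apply intervalIntegral.integral_mono_ae_restrict (by positivity)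
    p.intervalIntegrable_mahlerMeasure (by simp)
  rw [EventuallyLE, eventually_iff_exists_mem]
  use {x : ℝ | eval (circleMap 0 1 x) p ≠ 0}
  constructor
  · rw [mem_ae_iff, compl_def, Measure.restrict_apply' (by simp)]
    apply (Finite.of_sdiff _ <| finite_singleton (2 * π)).measure_zero
    simp only [ne_eq, mem_ofPred_eq, Decidable.not_not, inter_sdiff_assoc, Icc_sdiff_right]
    rw [ofPred_inter_eq_sep]
    apply Finite.of_finite_image (f := circleMap 0 1) ((Multiset.finite_toSet p.roots).subset _)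
      <| fun _ h _ k l ↦ injOn_circleMap_of_abs_sub_le' one_ne_zero (by linarith) h.1 k.1 l
    simp [hp]
  · intro x hx
    have hx' : 0 < ‖eval (circleMap 0 1 x) p‖ := norm_pos_iff.2 hx
    have h1 : ‖eval (circleMap 0 1 x) p‖ ≤ B := h _ (by simp)
    exact Real.log_le_log hx' h1

lemma NE_ht {m : ℕ} (hm : 0 < m) {P : ℤ[X]} (hP : P ≠ 0) {n : ℕ} (hn : P.natDegree ≤ n) :
    (ht (NE m P) : ℝ) ≤ 2 ^ n * ((n : ℝ) + 1) ^ m * (ht P : ℝ) ^ m := by
  obtain ⟨h0, h1, -⟩ := NE_lead hm hP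
  have hζ := Complex.isPrimitiveRoot_exp m (by omega)
  have hht : (1 : ℝ) ≤ ht P := by exact_mod_cast ht_pos hP
  have hnr : (P.natDegree : ℝ) ≤ n := by exact_mod_cast hn
  have hmm : mm (NE m P) ≤ (((n : ℝ) + 1) * ht P) ^ m := by
    unfold mm
    apply mahler_le_of_circle
    · exact (Polynomial.map_ne_zero_iff (RingHom.injective_int _)).mpr h0
    · positivity
    · intro z hz
      obtain ⟨l, rfl⟩ := IsAlgClosed.exists_pow_nat_eq z hm
      have hl : ‖l‖ = 1 := by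
        rw [norm_pow] at hz
        exact (pow_eq_one_iff_of_nonneg (norm_nonneg _) (by omega)).1 hz
      rw [aeval_map_eval, NE_prod' hm P hζ, norm_prod]
      calc ∏ i : Fin m, ‖aeval (Complex.exp (2 * Real.pi * Complex.I / m) ^ (i : ℕ) * l) P‖
          ≤ ∏ _i : Fin m, (((n : ℝ) + 1) * ht P) := by
            refine Finset.prod_le_prod (fun i _ => norm_nonneg _) (fun i _ => ?_)
            refine (norm_aeval_le P _ ?_).trans ?_
            · rw [norm_mul, norm_pow, hζ.norm'_eq_one (by omega), one_pow, one_mul, hl]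
            · gcongr
        _ = _ := by simp
  calc (ht (NE m P) : ℝ) ≤ 2 ^ (NE m P).natDegree * mm (NE m P) := ht_le_mm _
    _ ≤ 2 ^ n * (((n : ℝ) + 1) * ht P) ^ m := by
        have h3 : 0 ≤ mm (NE m P) := mahlerMeasure_nonneg _
        have h4 : (2 : ℝ) ^ (NE m P).natDegree ≤ 2 ^ n :=
          pow_le_pow_right₀ (by norm_num) (by rw [h1]; exact hn)
        exact mul_le_mul h4 hmm h3 (by positivity)
    _ = _ := by rw [mul_pow]; ring

lemma NE_root {m : ℕ} (hm : 0 < m) {P : ℤ[X]} {α : ℝ} (h : aeval α P = 0) :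
    aeval (α ^ m) (NE m P) = 0 := by
  have hζ := Complex.isPrimitiveRoot_exp m (by omega)
  have h1 := NE_prod' hm P hζ (α : ℂ)
  have h2 : aeval ((α : ℝ) : ℂ) P = 0 := by
    have : aeval ((algebraMap ℝ ℂ) α) P = algebraMap ℝ ℂ (aeval α P) :=
      aeval_algebraMap_apply ℂ α P
    rw [h] at this
    simpa using this
  rw [Finset.prod_eq_zero (Finset.mem_univ (⟨0, hm⟩ : Fin m)) (by simpa using h2)] at h1
  have h3 : aeval ((algebraMap ℝ ℂ) (α ^ m)) (NE m P) = algebraMap ℝ ℂ (aeval (α ^ m) (NE m P)) :=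
    aeval_algebraMap_apply ℂ (α ^ m) _
  have h4 : (algebraMap ℝ ℂ) (α ^ m) = (α : ℂ) ^ m := by simp
  rw [h4, h1] at h3
  have h5 : ((aeval (α ^ m) (NE m P) : ℝ) : ℂ) = 0 := h3.symm
  exact_mod_cast h5

/-- same sign and equal powers -/
lemma eq_of_pow_eq {m : ℕ} (hm : 0 < m) {a b : ℝ} (hab : 0 < a * b) (h : a ^ m = b ^ m) :
    a = b := by
  have h1 : |a| ^ m = |b| ^ m := by rw [← abs_pow, ← abs_pow, h]
  have h2 : |a| = |b| := (pow_left_inj₀ (abs_nonneg _) (abs_nonneg _) (by omega)).1 h1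
  rcases abs_eq_abs.1 h2 with h3 | h3
  · exact h3
  · exfalso
    rw [h3] at hab
    nlinarith [sq_nonneg b]

lemma same_sign {ξ α : ℝ} (h : |ξ - α| < |ξ|) : 0 < ξ * α := by
  rw [abs_lt] at h
  rcases lt_trichotomy ξ 0 with h1 | h1 | h1
  · rw [abs_of_neg h1] at h
    nlinarith
  · rw [h1] at h; simp at h; linarith
  · rw [abs_of_pos h1] at h
    nlinarith

/-- First inequality: approximations of `ξ` give approximations of `ξ^m`. -/
theorem SSet_pow {m : ℕ} (hm : 0 < m) (ξ : ℝ) (n : ℕ) (w : ℝ) (hw0 : -1 < w) (hwS : w ∈ SSet ξ n)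
    (hξ : ξ ≠ 0) (w' : ℝ) (hw' : (w' + 1) * m < w + 1) : w' ∈ SSet (ξ ^ m) n := by
  have hξa : 0 < |ξ| := abs_pos.mpr hξ
  refine W72.transfer ξ (ξ ^ m) n n w hw0 m (by omega) hwS (fun α => α ^ m)
    {α | |ξ - α| < |ξ|} ?_ (2 ^ n * ((n : ℝ) + 1) * (2 ^ n * ((n : ℝ) + 1) ^ m))
    (m * (2 * |ξ|) ^ (m - 1)) |ξ| ?_
    (mul_pos (by exact_mod_cast hm) (pow_pos (by linarith) _)) hξa ?_ ?_ w' hw'
  · intro α hα β hβ hab
    simp only [Set.mem_ofPred_eq] at hα hβ hab
    have h1 := same_sign hα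
    have h2 := same_sign hβ
    refine eq_of_pow_eq hm ?_ hab
    have : 0 < (ξ * ξ) * (α * β) := by nlinarith [mul_pos h1 h2]
    exact (mul_pos_iff_of_pos_left (mul_self_pos.2 hξ)).1 this
  · have h1 : (1 : ℝ) ≤ 2 ^ n := one_le_pow₀ (by norm_num)
    have h2 : (1 : ℝ) ≤ (n : ℝ) + 1 := by
      have : (0 : ℝ) ≤ n := Nat.cast_nonneg n
      linarith
    have h3 : (1 : ℝ) ≤ ((n : ℝ) + 1) ^ m := one_le_pow₀ h2
    calc (1 : ℝ) = 1 * 1 * (1 * 1) := by norm_num
      _ ≤ _ := by gcongr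
  · intro α _ h
    exact h
  · intro α hα P hP hPd hpos hlt
    have hP0 : P ≠ 0 := hP.1.ne_zero
    refine ⟨?_, ?_, ?_⟩
    · rw [abs_pos]
      intro h0
      have h1 := eq_of_pow_eq hm (same_sign hlt) (sub_eq_zero.1 h0)
      rw [h1, sub_self, abs_zero] at hpos
      exact lt_irrefl _ hpos
    · have h1 := abs_pow_sub_pow_le ξ α m
      have h2 : max |ξ| |α| ≤ 2 * |ξ| := by
        refine max_le (by linarith) ?_
        have h3 : |α| ≤ |ξ| + |ξ - α| := by
          have : α = ξ - (ξ - α) := by ring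
          calc |α| = |ξ - (ξ - α)| := by rw [← this]
            _ ≤ _ := abs_sub _ _
        linarith
      calc |ξ ^ m - α ^ m| ≤ |ξ - α| * m * max |ξ| |α| ^ (m - 1) := h1
        _ ≤ |ξ - α| * m * (2 * |ξ|) ^ (m - 1) := by gcongr
        _ = _ := by ring
    · obtain ⟨hE2, hE3, -⟩ := NE_lead hm hP0
      obtain ⟨Q, hQ1, hQ2⟩ := W72.exists_minZ_dvd (NE m P) hE2 _ (NE_root hm hP.2.2.2)
      refine ⟨Q, hQ1, ?_, ?_⟩
      · have := natDegree_le_of_dvd hQ2 hE2
        omega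
      · have h1 := W72.ht_dvd hE2 hQ2 (n := n) (by omega)
        calc (ht Q : ℝ) ≤ 2 ^ n * ((n : ℝ) + 1) * ht (NE m P) := h1
          _ ≤ 2 ^ n * ((n : ℝ) + 1) * (2 ^ n * ((n : ℝ) + 1) ^ m * (ht P : ℝ) ^ m) := by
              gcongr
              exact NE_ht hm hP0 hPd
          _ = _ := by ring

/-- Second inequality: approximations of `ξ^m` give approximations of `ξ` of `m` times the
degree. -/
theorem SSet_root {m : ℕ} (hm : 0 < m) (ξ : ℝ) (n : ℕ) (w : ℝ) (hw0 : -1 < w)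
    (hwS : w ∈ SSet (ξ ^ m) n) (hξ : ξ ≠ 0) (w' : ℝ) (hw' : w' < w) : w' ∈ SSet ξ (m * n) := by
  have hξa : 0 < |ξ| := abs_pos.mpr hξ
  have hξm : ξ ^ m ≠ 0 := pow_ne_zero _ hξ
  have hξm' : 0 < |ξ ^ m| := abs_pos.mpr hξm
  have hmr : (m : ℝ) ≠ 0 := by exact_mod_cast hm.ne'
  set sg : ℝ := if 0 < ξ then 1 else -1 with hsg
  have hsg1 : sg = 1 ∨ sg = -1 := by rw [hsg]; split_ifs <;> simp
  have hsgξ : ξ = sg * |ξ| := by
    rw [hsg]
    split_ifs with h
    · rw [abs_of_pos h, one_mul]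
    · rw [abs_of_nonpos (not_lt.1 h)]; ring
  set f : ℝ → ℝ := fun β => sg * |β| ^ ((m : ℝ)⁻¹) with hf
  have hfm : ∀ β : ℝ, 0 < ξ ^ m * β → (f β) ^ m = β := by
    intro β hβ
    rw [hf]
    simp only
    rw [mul_pow, ← Real.rpow_natCast (|β| ^ ((m : ℝ)⁻¹)), ← Real.rpow_mul (abs_nonneg _),
      inv_mul_cancel₀ hmr, Real.rpow_one]
    have h1 : ξ ^ m = sg ^ m * |ξ| ^ m := by
      conv_lhs => rw [hsgξ]
      rw [mul_pow]
    have h2 : 0 < |ξ| ^ m := by positivity
    rw [h1] at hβ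
    have h3 : sg ^ m = 1 ∨ sg ^ m = -1 := by
      rcases hsg1 with h | h
      · left; rw [h, one_pow]
      · rw [h]; exact neg_one_pow_eq_or ℝ m
    rcases h3 with h | h
    · rw [h] at hβ ⊢
      have : 0 < β := by
        have : 0 < |ξ| ^ m * β := by linarith
        exact (mul_pos_iff_of_pos_left h2).1 this
      rw [abs_of_pos this, one_mul]
    · rw [h] at hβ ⊢
      have : 0 < -β := by
        have : 0 < |ξ| ^ m * (-β) := by linarith
        exact (mul_pos_iff_of_pos_left h2).1 this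
      rw [abs_of_neg (by linarith)]; ring
  have hdist : ∀ β : ℝ, 0 < ξ ^ m * β → |ξ - f β| * |ξ| ^ (m - 1) ≤ |ξ ^ m - β| := by
    intro β hβ
    set b : ℝ := |β| ^ ((m : ℝ)⁻¹) with hb
    have hb0 : 0 ≤ b := Real.rpow_nonneg (abs_nonneg _) _
    have e1 : |ξ - f β| = |(|ξ| - b)| := by
      have : ξ - f β = sg * (|ξ| - b) := by
        rw [mul_sub, ← hsgξ]
      rw [this, abs_mul]
      rcases hsg1 with h | h <;> rw [h] <;> simp
    have e2 : |ξ ^ m - β| = |(|ξ| ^ m - b ^ m)| := by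
      have h1 : ξ ^ m - β = sg ^ m * (|ξ| ^ m - b ^ m) := by
        have h2 : ξ ^ m = sg ^ m * |ξ| ^ m := by
          conv_lhs => rw [hsgξ]
          rw [mul_pow]
        have h3 : β = sg ^ m * b ^ m := by
          rw [← mul_pow]; exact (hfm β hβ).symm
        rw [mul_sub, ← h2, ← h3]
      rw [h1, abs_mul, abs_pow]
      rcases hsg1 with h | h <;> rw [h] <;> simp
    rw [e1, e2]
    have hgeo := (Commute.all |ξ| b).geom_sum₂_mul m
    rw [← hgeo, abs_mul, mul_comm |(|ξ| - b)|]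
    have h1 := Finset.single_le_sum (f := fun i => |ξ| ^ i * b ^ (m - 1 - i))
      (fun i _ => by positivity) (Finset.mem_range.2 (show m - 1 < m by omega))
    have h2 : |ξ| ^ (m - 1) ≤ ∑ i ∈ Finset.range m, |ξ| ^ i * b ^ (m - 1 - i) := by
      simpa using h1
    exact mul_le_mul_of_nonneg_right (h2.trans (le_abs_self _)) (abs_nonneg _)
  refine W72.transfer (ξ ^ m) ξ n (m * n) w hw0 1 le_rfl hwS f {β | 0 < ξ ^ m * β} ?_
    (2 ^ (m * n) * (((m * n : ℕ) : ℝ) + 1)) (1 / |ξ| ^ (m - 1)) (|ξ ^ m|) ?_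
    (by positivity) hξm' ?_ ?_ w' (by push_cast; linarith)
  · intro α hα β hβ hab
    simp only [Set.mem_ofPred_eq] at hα hβ
    rw [← hfm α hα, ← hfm β hβ, hab]
  · have h1 : (1 : ℝ) ≤ 2 ^ (m * n) := one_le_pow₀ (by norm_num)
    have h2 : (1 : ℝ) ≤ ((m * n : ℕ) : ℝ) + 1 := by
      have : (0 : ℝ) ≤ ((m * n : ℕ) : ℝ) := Nat.cast_nonneg _
      linarith
    calc (1 : ℝ) = 1 * 1 := by norm_num
      _ ≤ _ := by gcongr
  · intro β _ h
    exact same_sign h
  · intro β hβ P hP hPd hpos hlt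
    simp only [Set.mem_ofPred_eq] at hβ
    have hP0 : P ≠ 0 := hP.1.ne_zero
    have hd := hdist β hβ
    refine ⟨?_, ?_, ?_⟩
    · rw [abs_pos]
      intro h0
      have h1 : ξ = f β := sub_eq_zero.1 h0
      have h2 : ξ ^ m = β := by
        conv_lhs => rw [h1]
        exact hfm β hβ
      rw [h2, sub_self, abs_zero] at hpos
      exact lt_irrefl _ hpos
    · rw [one_div, inv_mul_eq_div, le_div_iff₀ (by positivity)]
      exact hd
    · have hexp0 : expand ℤ m P ≠ 0 := by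
        intro h0
        exact hP0 ((expand_eq_zero hm).mp h0)
      have hval : aeval (f β) (expand ℤ m P) = 0 := by
        have h1 : aeval (f β) (expand ℤ m P) = aeval ((f β) ^ m) P := expand_aeval m P (f β)
        rw [h1, hfm β hβ, hP.2.2.2]
      obtain ⟨Q, hQ1, hQ2⟩ := W72.exists_minZ_dvd _ hexp0 _ hval
      have hdeg : (expand ℤ m P).natDegree ≤ m * n := by
        rw [natDegree_expand, mul_comm]
        exact Nat.mul_le_mul_left _ hPd
      have hhe : ht (expand ℤ m P) ≤ ht P := by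
        apply ht_le_of
        intro i
        rw [coeff_expand hm]
        split_ifs
        · exact natAbs_coeff_le_ht P _
        · simp
      refine ⟨Q, hQ1, ?_, ?_⟩
      · exact (natDegree_le_of_dvd hQ2 hexp0).trans hdeg
      · have h1 := W72.ht_dvd hexp0 hQ2 hdeg
        rw [pow_one]
        refine h1.trans ?_
        gcongr

end Pool.Agent.Y821.PW
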