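import Pool.Agent.Y821.PW.B

set_option autoImplicit false
set_option linter.unusedSectionVars false

namespace Pool.Agent.Y821.PW

open Polynomial Pool.Agent Pool.Agent.Helper35

lemma aevalC_map (Q : ℤ[X]) (x : ℂ) : aeval x (Q.map (Int.castRingHom ℚ)) = aeval x Q :=
  aeval_map_algebraMap ℚ x Q

lemma mult_le_one {S : ℤ[X]} (hS : IrrQ S) {z : ℂ} (hz : z ≠ 0) (a : ℂ) :
    rootMultiplicity a (rp S z) ≤ 1 := by
  by_contra hcon
  push Not at hcon
  rw [one_lt_rootMultiplicity_iff_isRoot (rp_ne hS.ne_zero hz)] at hcon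
  obtain ⟨h1, h2⟩ := hcon
  have e1 : aeval (z * a) S = 0 := by rw [← rp_eval]; exact h1
  have e2 : aeval (z * a) (derivative S) = 0 := by
    have h3 : eval a (derivative (rp S z)) = 0 := h2
    unfold rp at h3
    rw [derivative_comp, eval_mul, eval_comp, derivative_map, aeval_map_eval] at h3
    simp only [derivative_mul, derivative_C, zero_mul, derivative_X, mul_one, zero_add, eval_C,
      eval_mul, eval_X] at h3
    rcases mul_eq_zero.1 h3 with h | h
    · exact absurd h hz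
    · exact h
  have hsep : (S.map (Int.castRingHom ℚ)).Separable := Irreducible.separable hS
  obtain ⟨u, v, huv⟩ := hsep
  have h4 := congrArg (aeval (z * a)) huv
  rw [map_add, map_mul, map_mul, derivative_map, aevalC_map, aevalC_map, e1, e2] at h4
  simp at h4

/-- If `S` divides `P(X^m)` and the degree of `S` is prime to `m!`, then `P` is the norm of `S`. -/
lemma alg_core {m : ℕ} (hm : 0 < m) {S P : ℤ[X]} (hS : IrrQ S) (hP : IrrQ P)
    (hdvd : S ∣ expand ℤ m P) (hcop : Nat.Coprime S.natDegree m.factorial) :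
    P.natDegree = S.natDegree ∧ ∃ (g r : ℤ) (p : ℤ[X]), g ≠ 0 ∧ r ≠ 0 ∧ P = C g * p ∧
      NE m S = C r * p := by
  have hζ := Complex.isPrimitiveRoot_exp m (by omega)
  set ζ := Complex.exp (2 * Real.pi * Complex.I / m) with hζd
  have hζ0 : ζ ≠ 0 := hζ.ne_zero (by omega)
  have hS0 := hS.ne_zero
  have hP0 := hP.ne_zero
  obtain ⟨hE0, hEdeg, -⟩ := NE_lead hm hS0
  obtain ⟨E, hE⟩ : ∃ E, E = NE m S := ⟨_, rfl⟩
  rw [← hE] at hE0 hEdeg ⊢
  have hroot : ∀ a : ℂ, aeval a S = 0 → aeval (a ^ m) P = 0 := by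
    intro a ha
    obtain ⟨W, hW⟩ := hdvd
    rw [← expand_aeval, hW, map_mul, ha, zero_mul]
  have hEq0 : E.map (Int.castRingHom ℚ) ≠ 0 :=
    (Polynomial.map_ne_zero_iff (RingHom.injective_int _)).mpr hE0
  have hdvdF : ∀ F : ℚ[X], F ∣ E.map (Int.castRingHom ℚ) → F.natDegree ≠ 0 →
      P.map (Int.castRingHom ℚ) ∣ F := by
    intro F hF hFd
    have hFd' : F.degree ≠ 0 := fun h => hFd (natDegree_eq_of_degree_eq_some h)
    obtain ⟨b, hb⟩ := IsAlgClosed.exists_aeval_eq_zero ℂ F hFd'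
    have hEb : aeval b E = 0 := by
      obtain ⟨W, hW⟩ := hF
      rw [← aevalC_map, hW, map_mul, hb, zero_mul]
    obtain ⟨l, rfl⟩ := IsAlgClosed.exists_pow_nat_eq b hm
    rw [hE, NE_prod' hm S hζ l, Finset.prod_eq_zero_iff] at hEb
    obtain ⟨i, -, hi⟩ := hEb
    have h1 := hroot _ hi
    have h2 : (ζ ^ (i : ℕ) * l) ^ m = l ^ m := by
      rw [mul_pow, ← pow_mul, mul_comm (i : ℕ) m, pow_mul, hζ.pow_eq_one, one_pow, one_mul]
    rw [h2] at h1
    have hint : IsIntegral ℚ (l ^ m) := by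
      rw [← isAlgebraic_iff_isIntegral]
      refine ⟨F, ?_, hb⟩
      rintro rfl
      simp at hFd
    have h3 : minpoly ℚ (l ^ m) ∣ P.map (Int.castRingHom ℚ) :=
      minpoly.dvd ℚ _ (by rw [aevalC_map]; exact h1)
    have h4 : minpoly ℚ (l ^ m) ∣ F := minpoly.dvd ℚ _ hb
    exact ((minpoly.irreducible hint).associated_of_dvd hP h3).symm.dvd.trans h4
  have hPnu : ¬ IsUnit (P.map (Int.castRingHom ℚ)) := hP.not_isUnit
  obtain ⟨t, F, hF1, hF2⟩ := (FiniteMultiplicity.of_not_isUnit hPnu hEq0).exists_eq_pow_mul_and_not_dvd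
    |> fun h => (⟨_, h⟩ : ∃ t : ℕ, ∃ F : ℚ[X], E.map (Int.castRingHom ℚ) =
      (P.map (Int.castRingHom ℚ)) ^ t * F ∧ ¬ (P.map (Int.castRingHom ℚ)) ∣ F)
  have hFd : F.natDegree = 0 := by
    by_contra h
    exact hF2 (hdvdF F (by rw [hF1]; exact dvd_mul_left _ _) h)
  have hF0 : F ≠ 0 := by
    rintro rfl
    rw [mul_zero] at hF1
    exact hEq0 hF1
  have hdeg : S.natDegree = t * P.natDegree := by
    have h1 := congrArg natDegree hF1
    rw [natDegree_mul (pow_ne_zero _ (Irreducible.ne_zero hP)) hF0, natDegree_pow, hFd, add_zero,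
      natDegree_map_eq_of_injective (RingHom.injective_int _),
      natDegree_map_eq_of_injective (RingHom.injective_int _), hEdeg] at h1
    exact h1
  have hSpos := hS.natDegree_pos
  have ht0 : t ≠ 0 := by rintro rfl; omega
  -- the multiplicity
  have htm : t ≤ m := by
    have hSd : (S.map (Int.castRingHom ℚ)).degree ≠ 0 := by
      intro h
      have := natDegree_eq_zero_iff_degree_le_zero.2 h.le
      rw [natDegree_map_eq_of_injective (RingHom.injective_int _)] at this
      omega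
    obtain ⟨a, ha⟩ := IsAlgClosed.exists_aeval_eq_zero ℂ _ hSd
    rw [aevalC_map] at ha
    have hPa := hroot a ha
    have hpoly := NE_poly hm S hζ
    rw [← hE] at hpoly
    have hne : ∏ i : Fin m, rp S (ζ ^ (i : ℕ)) ≠ 0 :=
      Finset.prod_ne_zero_iff.2 (fun i _ => rp_ne hS0 (pow_ne_zero _ hζ0))
    have hXa : (X - C a) ^ t ∣ ∏ i : Fin m, rp S (ζ ^ (i : ℕ)) := by
      rw [← hpoly]
      have e1 : E.map (Int.castRingHom ℂ) =
          (E.map (Int.castRingHom ℚ)).map (algebraMap ℚ ℂ) := by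
        rw [Polynomial.map_map]; congr 1
      rw [e1, hF1, Polynomial.map_mul, map_mul, Polynomial.map_pow, map_pow]
      refine Dvd.dvd.mul_right (pow_dvd_pow_of_dvd ?_ t) _
      rw [dvd_iff_isRoot, IsRoot.def, expand_eval, eval_map_algebraMap, aevalC_map]
      exact hPa
    have h1 := (le_rootMultiplicity_iff hne).2 hXa
    have h2 : rootMultiplicity a (∏ i : Fin m, rp S (ζ ^ (i : ℕ))) =
        ∑ i : Fin m, rootMultiplicity a (rp S (ζ ^ (i : ℕ))) := by
      have hgen : ∀ s : Finset (Fin m), rootMultiplicity a (∏ i ∈ s, rp S (ζ ^ (i : ℕ))) =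
          ∑ i ∈ s, rootMultiplicity a (rp S (ζ ^ (i : ℕ))) := by
        intro s
        classical
        induction s using Finset.induction_on with
        | empty => simp
        | insert i s hi ih =>
          rw [Finset.prod_insert hi, Finset.sum_insert hi, rootMultiplicity_mul, ih]
          exact mul_ne_zero (rp_ne hS0 (pow_ne_zero _ hζ0))
            (Finset.prod_ne_zero_iff.2 (fun i _ => rp_ne hS0 (pow_ne_zero _ hζ0)))
      exact hgen _
    rw [h2] at h1
    refine h1.trans ?_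
    calc ∑ i : Fin m, rootMultiplicity a (rp S (ζ ^ (i : ℕ))) ≤ ∑ _i : Fin m, 1 :=
          Finset.sum_le_sum (fun i _ => mult_le_one hS (pow_ne_zero _ hζ0) a)
      _ = m := by simp
  have ht1 : t = 1 := by
    have h1 : t ∣ m.factorial := Nat.dvd_factorial (by omega) htm
    have h2 : t ∣ S.natDegree := ⟨_, hdeg⟩
    exact Nat.dvd_one.1 (hcop ▸ Nat.dvd_gcd h2 h1)
  rw [ht1, one_mul] at hdeg
  refine ⟨hdeg.symm, ?_⟩
  obtain ⟨p, hp⟩ : ∃ p, p = P.primPart := ⟨_, rfl⟩
  obtain ⟨g, hg⟩ : ∃ g, g = P.content := ⟨_, rfl⟩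
  have hPfac : P = C g * p := by rw [hg, hp]; exact P.eq_C_content_mul_primPart
  have hg0 : g ≠ 0 := by
    rintro rfl
    rw [C_0, zero_mul] at hPfac
    exact hP0 hPfac
  have hpprim : p.IsPrimitive := by rw [hp]; exact P.isPrimitive_primPart
  have hpE : p ∣ E := by
    have h1 : p.map (Int.castRingHom ℚ) ∣ P.map (Int.castRingHom ℚ) := by
      rw [hPfac, Polynomial.map_mul]; exact dvd_mul_left _ _
    have h2 : p.map (Int.castRingHom ℚ) ∣ E.map (Int.castRingHom ℚ) := by
      refine h1.trans ?_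
      rw [hF1, ht1, pow_one]
      exact dvd_mul_right _ _
    exact (IsPrimitive.Int.dvd_iff_map_cast_dvd_map_cast _ _ hpprim).2 h2
  obtain ⟨W, hW⟩ := hpE
  have hp0 : p ≠ 0 := by rintro rfl; rw [zero_mul] at hW; exact hE0 hW
  have hW0 : W ≠ 0 := by rintro rfl; rw [mul_zero] at hW; exact hE0 hW
  have hpd : p.natDegree = P.natDegree := by
    rw [hPfac, natDegree_C_mul hg0]
  have hWd : W.natDegree = 0 := by
    have h1 := congrArg natDegree hW
    rw [natDegree_mul hp0 hW0] at h1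
    omega
  refine ⟨g, W.coeff 0, p, hg0, ?_, hPfac, ?_⟩
  · intro h
    apply hW0
    rw [eq_C_of_natDegree_eq_zero hWd, h, C_0]
  · rw [hW, mul_comm]
    congr 1
    exact eq_C_of_natDegree_eq_zero hWd

end Pool.Agent.Y821.PW
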