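import Pool.Agent.Y821.PW.C

set_option autoImplicit false
set_option linter.unusedSectionVars false

namespace Pool.Agent.Y821.PW

open Polynomial Pool.Agent Pool.Agent.Helper35

variable {e V Mq : ℕ → ℕ} (X : SData e V Mq)

lemma aevalC_real (P : ℤ[X]) (x : ℝ) : aeval (x : ℂ) P = ((aeval x P : ℝ) : ℂ) := by
  have : aeval ((algebraMap ℝ ℂ) x) P = algebraMap ℝ ℂ (aeval x P) :=
    aeval_algebraMap_apply ℂ x P
  simpa using this

/-- The special polynomials at complex points. -/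
lemma S_evalC (k : ℕ) (x : ℂ) : aeval x (X.S k) = (X.N k : ℂ) ^ (e k + 1) *
    aeval (x - (X.n k : ℂ) / (X.N k : ℂ)) (TD (e k)).T := by
  have hN0 : ((X.N k : ℕ) : ℤ) ≠ 0 := by
    have := X.N_pos k
    exact_mod_cast (by omega : X.N k ≠ 0)
  have h := congrArg (aeval x) (shf_map (TD (e k)).T (X.N k) (-(X.n k)) hN0)
  rw [aevalC_map, map_mul, aeval_C, aeval_comp, (TD (e k)).deg] at h
  have h1 : X.S k = shf (TD (e k)).T (X.N k) (-(X.n k)) := rfl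
  rw [h1, h]
  have h2 : (aeval x) (Polynomial.X + C (((-(X.n k) : ℤ) : ℚ) / ((X.N k : ℤ) : ℚ)) : ℚ[X]) =
      x - (X.n k : ℂ) / (X.N k : ℂ) := by
    rw [map_add, aeval_X, aeval_C]
    push_cast
    simp
    ring
  rw [h2, aevalC_map]
  congr 1
  push_cast
  simp

/-- The rotated special polynomials are not small at `ξ`. -/
lemma rot_lower (hM : Demand e Mq) (hV : ∀ j, 22 ≤ V j) (hmono : Monotone V)
    (hV40 : ∀ j, 40 * (j + 1) ≤ V j) (z : ℂ) (hz : z ≠ 1) (hzalg : IsAlgebraic ℚ z) (j : ℕ) :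
    ∃ c : ℝ, 0 < c ∧ ∀ k, e k = j → c * (X.N k : ℝ) ^ (j + 1) ≤ ‖aeval (z * (X.ξ : ℂ)) (X.S k)‖ := by
  classical
  obtain ⟨T, hT⟩ : ∃ T : ℤ[X], T = (TD j).T := ⟨_, rfl⟩
  obtain ⟨θ, hθ⟩ : ∃ θ : ℝ, θ = (TD j).θ := ⟨_, rfl⟩
  have hne0 : ∀ P : ℤ[X], P ≠ 0 → aeval X.ξ P ≠ 0 := W72.ne_zero_at X hM hV hmono hV40
  have hξt : ¬ IsAlgebraic ℚ (X.ξ : ℂ) := by
    intro h2
    rw [← IsFractionRing.isAlgebraic_iff ℤ ℚ ℂ] at h2
    obtain ⟨P, hP, h0⟩ := h2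
    rw [aevalC_real] at h0
    exact hne0 P hP (by exact_mod_cast h0)
  have hz1 : z - 1 ≠ 0 := sub_ne_zero.2 hz
  have htr : ∀ w : ℂ, IsAlgebraic ℚ w → ∀ Q : ℤ[X], Q ≠ 0 → w = z - 1 ∨ w = z → w ≠ 0 →
      ∀ s : ℂ, IsAlgebraic ℚ s → aeval (s + w * (X.ξ : ℂ)) Q ≠ 0 := by
    intro w hw Q hQ _ hw0 s hs h0
    have h1 : IsAlgebraic ℤ (s + w * (X.ξ : ℂ)) := ⟨Q, hQ, h0⟩
    have h2 : IsAlgebraic ℚ (s + w * (X.ξ : ℂ)) := (IsFractionRing.isAlgebraic_iff ℤ ℚ ℂ).mp h1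
    have h3 : IsAlgebraic ℚ (w * (X.ξ : ℂ)) := by
      have e1 : w * (X.ξ : ℂ) = (s + w * (X.ξ : ℂ)) - s := by ring
      rw [e1]; exact h2.sub hs
    have h4 : IsAlgebraic ℚ (X.ξ : ℂ) := by
      have e1 : (X.ξ : ℂ) = w⁻¹ * (w * (X.ξ : ℂ)) := by field_simp
      rw [e1]; exact (IsAlgebraic.inv hw).mul h3
    exact hξt h4
  have hθalg : IsAlgebraic ℚ (θ : ℂ) := by
    rw [← IsFractionRing.isAlgebraic_iff ℤ ℚ ℂ]
    refine ⟨T, by rw [hT]; exact (TD j).irr.ne_zero, ?_⟩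
    rw [aevalC_real, hT, hθ, (TD j).root]; simp
  have hz1alg : IsAlgebraic ℚ (z - 1) := hzalg.sub isAlgebraic_one
  have hTne : aeval ((θ : ℂ) + (z - 1) * (X.ξ : ℂ)) T ≠ 0 :=
    htr (z - 1) hz1alg T (by rw [hT]; exact (TD j).irr.ne_zero) (Or.inl rfl) hz1 _ hθalg
  have hcont : Continuous (fun x : ℂ => aeval x T) := Polynomial.continuous_aeval T
  set κ : ℝ := ‖aeval ((θ : ℂ) + (z - 1) * (X.ξ : ℂ)) T‖ / 2 with hκ
  have hκ0 : 0 < κ := by rw [hκ]; have := norm_pos_iff.mpr hTne; linarith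
  obtain ⟨δ, hδ, hδ2⟩ := Metric.continuousAt_iff.mp
    (hcont.continuousAt (x := (θ : ℂ) + (z - 1) * (X.ξ : ℂ))) κ hκ0
  have hbig : ∀ k, e k = j → ⌈2 / δ⌉₊ < k → κ * (X.N k : ℝ) ^ (j + 1) ≤
      ‖aeval (z * (X.ξ : ℂ)) (X.S k)‖ := by
    intro k hk hkb
    have hN := X.N_one_le k
    have hNpos : (0 : ℝ) < X.N k := by linarith
    rw [S_evalC, norm_mul, norm_pow, Complex.norm_natCast, hk, ← hT, mul_comm]
    gcongr
    have hkN : ((⌈2 / δ⌉₊ : ℕ) : ℝ) < X.N k := by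
      have := X.k_le_N hM k
      exact_mod_cast (by omega : ⌈2 / δ⌉₊ < X.N k)
    have h1 : 2 / δ < X.N k := lt_of_le_of_lt (Nat.le_ceil _) hkN
    have h2 : 2 / (X.N k : ℝ) < δ := by
      rw [div_lt_iff₀ hδ] at h1
      rw [div_lt_iff₀ hNpos]
      linarith
    have h3 := W72.alpha_close X hV k
    have h4 : dist (z * (X.ξ : ℂ) - (X.n k : ℂ) / (X.N k : ℂ))
        ((θ : ℂ) + (z - 1) * (X.ξ : ℂ)) < δ := by
      rw [dist_eq_norm]
      have e4 : z * (X.ξ : ℂ) - (X.n k : ℂ) / (X.N k : ℂ) - ((θ : ℂ) + (z - 1) * (X.ξ : ℂ)) =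
          ((X.ξ - X.α k : ℝ) : ℂ) := by
        unfold SData.α
        rw [hk, ← hθ]; push_cast; ring
      rw [e4, Complex.norm_real, Real.norm_eq_abs]
      linarith
    have h5 := hδ2 h4
    rw [dist_eq_norm] at h5
    have h6 := norm_sub_norm_le (aeval ((θ : ℂ) + (z - 1) * (X.ξ : ℂ)) T)
      (aeval (z * (X.ξ : ℂ) - (X.n k : ℂ) / (X.N k : ℂ)) T)
    rw [norm_sub_rev] at h6
    have h7 : ‖aeval ((θ : ℂ) + (z - 1) * (X.ξ : ℂ)) T‖ = 2 * κ := by rw [hκ]; ring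
    linarith
  set B : ℕ := ⌈2 / δ⌉₊ with hB
  by_cases hz0 : z = 0
  · -- not needed, but simple
    obtain ⟨c0, hc0, hc0'⟩ : ∃ c0 : ℝ, 0 < c0 ∧ ∀ k ≤ B, c0 * (X.N k : ℝ) ^ (j + 1) ≤
        ‖aeval (z * (X.ξ : ℂ)) (X.S k)‖ := by
      have hpos : ∀ k, 0 < ‖aeval (z * (X.ξ : ℂ)) (X.S k)‖ / (X.N k : ℝ) ^ (j + 1) := by
        intro k
        have h1 : aeval (z * (X.ξ : ℂ)) (X.S k) ≠ 0 := by
          rw [hz0, zero_mul, ← coeff_zero_eq_aeval_zero']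
          simp only [algebraMap_int_eq, eq_intCast, ne_eq, Int.cast_eq_zero]
          exact X.S_coeff_zero k
        have h2 := X.N_one_le k
        have : (0 : ℝ) < X.N k := by linarith
        have := norm_pos_iff.mpr h1
        positivity
      obtain ⟨k0, _, hk0⟩ := (Finset.range (B + 1)).exists_min_image
        (fun k => ‖aeval (z * (X.ξ : ℂ)) (X.S k)‖ / (X.N k : ℝ) ^ (j + 1))
        ⟨0, Finset.mem_range.mpr (by omega)⟩
      refine ⟨_, hpos k0, fun k hk => ?_⟩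
      have h1 := hk0 k (Finset.mem_range.mpr (by omega))
      have h2 := X.N_one_le k
      have h3 : (0 : ℝ) < (X.N k : ℝ) ^ (j + 1) := by
        have : (0 : ℝ) < X.N k := by linarith
        positivity
      rwa [le_div_iff₀ h3] at h1
    refine ⟨min κ c0, lt_min hκ0 hc0, fun k hk => ?_⟩
    have h2 := X.N_one_le k
    rcases le_or_gt k B with h | h
    · refine le_trans ?_ (hc0' k h)
      gcongr
      exact min_le_right _ _
    · refine le_trans ?_ (hbig k hk h)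
      gcongr
      exact min_le_left _ _
  · obtain ⟨c0, hc0, hc0'⟩ : ∃ c0 : ℝ, 0 < c0 ∧ ∀ k ≤ B, c0 * (X.N k : ℝ) ^ (j + 1) ≤
        ‖aeval (z * (X.ξ : ℂ)) (X.S k)‖ := by
      have hpos : ∀ k, 0 < ‖aeval (z * (X.ξ : ℂ)) (X.S k)‖ / (X.N k : ℝ) ^ (j + 1) := by
        intro k
        have h1 : aeval (z * (X.ξ : ℂ)) (X.S k) ≠ 0 := by
          have := htr z hzalg (X.S k) (X.S_irr k).ne_zero (Or.inr rfl) hz0 0 isAlgebraic_zero
          rwa [zero_add] at this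
        have h2 := X.N_one_le k
        have : (0 : ℝ) < X.N k := by linarith
        have := norm_pos_iff.mpr h1
        positivity
      obtain ⟨k0, _, hk0⟩ := (Finset.range (B + 1)).exists_min_image
        (fun k => ‖aeval (z * (X.ξ : ℂ)) (X.S k)‖ / (X.N k : ℝ) ^ (j + 1))
        ⟨0, Finset.mem_range.mpr (by omega)⟩
      refine ⟨_, hpos k0, fun k hk => ?_⟩
      have h1 := hk0 k (Finset.mem_range.mpr (by omega))
      have h2 := X.N_one_le k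
      have h3 : (0 : ℝ) < (X.N k : ℝ) ^ (j + 1) := by
        have : (0 : ℝ) < X.N k := by linarith
        positivity
      rwa [le_div_iff₀ h3] at h1
    refine ⟨min κ c0, lt_min hκ0 hc0, fun k hk => ?_⟩
    have h2 := X.N_one_le k
    rcases le_or_gt k B with h | h
    · refine le_trans ?_ (hc0' k h)
      gcongr
      exact min_le_right _ _
    · refine le_trans ?_ (hbig k hk h)
      gcongr
      exact min_le_left _ _

end Pool.Agent.Y821.PW
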