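import Pool.Agent.Y821.PW.D

set_option autoImplicit false
set_option linter.unusedSectionVars false

namespace Pool.Agent.Y821.PW

open Polynomial Pool.Agent Pool.Agent.Helper35

variable {e V Mq : ℕ → ℕ} (X : SData e V Mq)

/-- The bound at `ξ^m`. -/
theorem bound_pow {m : ℕ} (hm : 0 < m) (hcop : ∀ k, Nat.Coprime (e k + 1) m.factorial)
    (hM : Demand e Mq) (hmono : Monotone V) (hV : ∀ j, 22 ≤ V j) (hV40 : ∀ j, 40 * (j + 1) ≤ V j)
    (U : ℕ → ℕ) (hVU : ∀ j, V j = m * U j) (hU : StrictMono U)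
    (hUbig : ∀ j, 40 * (m * j + 1) + 1 ≤ U j) (n : ℕ) :
    ∃ c : ℝ, 0 < c ∧ ∀ P : ℤ[X], P ≠ 0 → P.natDegree ≤ n →
      c ≤ |aeval (X.ξ ^ m) P| * (ht P : ℝ) ^ (U n) := by
  have hne := W72.ne_zero_at X hM hV hmono hV40
  apply general_bound
  intro μ hμ hμn
  obtain ⟨c1, hc1, hcc1⟩ := W72.pred_bound X hne (m * μ)
  have hζ := Complex.isPrimitiveRoot_exp m (by omega)
  obtain ⟨ζ, hζd⟩ : ∃ ζ, ζ = Complex.exp (2 * Real.pi * Complex.I / m) := ⟨_, rfl⟩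
  rw [← hζd] at hζ
  have hζalg : IsAlgebraic ℚ ζ := (hζ.isIntegral hm).tower_top.isAlgebraic
  have hrot : ∀ i : Fin m, ∃ c : ℝ, 0 < c ∧ ((i : ℕ) ≠ 0 → ∀ k, e k = μ - 1 →
      c ≤ ‖aeval (ζ ^ (i : ℕ) * (X.ξ : ℂ)) (X.S k)‖) := by
    intro i
    by_cases hi : (i : ℕ) = 0
    · exact ⟨1, one_pos, fun h => absurd hi h⟩
    · have hz : ζ ^ (i : ℕ) ≠ 1 := hζ.pow_ne_one_of_pos_of_lt hi i.2
      obtain ⟨c, hc, hcc⟩ := rot_lower X hM hV hmono hV40 (ζ ^ (i : ℕ)) hz (hζalg.pow _) (μ - 1)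
      refine ⟨c, hc, fun _ k hk => ?_⟩
      have h1 := hcc k hk
      have h2 : (1 : ℝ) ≤ (X.N k : ℝ) ^ (μ - 1 + 1) := one_le_pow₀ (X.N_one_le k)
      calc c = c * 1 := (mul_one c).symm
        _ ≤ c * (X.N k : ℝ) ^ (μ - 1 + 1) := by gcongr
        _ ≤ _ := h1
  choose cr hcr hcr' using hrot
  obtain ⟨c2, hc2d⟩ : ∃ c2 : ℝ, c2 = ∏ i ∈ Finset.univ.erase (⟨0, hm⟩ : Fin m), cr i := ⟨_, rfl⟩
  have hc2 : 0 < c2 := by rw [hc2d]; exact Finset.prod_pos (fun i _ => hcr i)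
  have hprod : ∀ k, e k = μ - 1 → c2 * |aeval X.ξ (X.S k)| ≤ |aeval (X.ξ ^ m) (NE m (X.S k))| := by
    intro k hk
    have h1 := NE_prod' hm (X.S k) hζ (X.ξ : ℂ)
    have h2 : ‖aeval ((X.ξ : ℂ) ^ m) (NE m (X.S k))‖ = |aeval (X.ξ ^ m) (NE m (X.S k))| := by
      have : ((X.ξ : ℂ)) ^ m = ((X.ξ ^ m : ℝ) : ℂ) := by push_cast; rfl
      rw [this, aevalC_real, Complex.norm_real, Real.norm_eq_abs]
    rw [← h2, h1, norm_prod, ← Finset.mul_prod_erase _ _ (Finset.mem_univ (⟨0, hm⟩ : Fin m))]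
    have h3 : ‖aeval (ζ ^ (((⟨0, hm⟩ : Fin m) : ℕ)) * (X.ξ : ℂ)) (X.S k)‖ = |aeval X.ξ (X.S k)| := by
      simp only [pow_zero, one_mul]
      rw [aevalC_real, Complex.norm_real, Real.norm_eq_abs]
    rw [h3, mul_comm]
    gcongr
    rw [hc2d]
    refine Finset.prod_le_prod (fun i _ => (hcr i).le) (fun i hi => hcr' i ?_ k hk)
    intro h
    exact (Finset.mem_erase.1 hi).1 (Fin.ext h)
  have hCh : 1 ≤ SData.Ch (μ - 1) := SData.Ch_one_le _
  have hCh0 : 0 < SData.Ch (μ - 1) := by linarith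
  obtain ⟨Ch, hChd⟩ : ∃ Ch : ℝ, Ch = SData.Ch (μ - 1) := ⟨_, rfl⟩
  rw [← hChd] at hCh hCh0
  obtain ⟨tt, htt⟩ : ∃ tt : ℕ, tt = (TD (μ - 1)).T.leadingCoeff.natAbs := ⟨_, rfl⟩
  have htt1 : 1 ≤ tt := by
    rw [htt]
    exact Int.natAbs_pos.mpr (leadingCoeff_ne_zero.mpr (TD (μ - 1)).irr.ne_zero)
  obtain ⟨R0, hR0d⟩ : ∃ R0 : ℝ, R0 = (tt : ℝ) ^ m := ⟨_, rfl⟩
  have hR0 : 0 < R0 := by
    rw [hR0d]
    have : (0 : ℝ) < tt := by exact_mod_cast htt1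
    positivity
  obtain ⟨c3, hc3d⟩ : ∃ c3 : ℝ, c3 = c2 / R0 / (Ch ^ m) ^ (U (μ - 1)) := ⟨_, rfl⟩
  have hc3 : 0 < c3 := by rw [hc3d]; positivity
  refine ⟨⌈1 / c1⌉₊ + ⌈1 / c3⌉₊, fun P hP hPd hH => ?_⟩
  have hH1 : (1 : ℝ) ≤ ht P := by exact_mod_cast ht_pos hP.ne_zero
  have hHc1 : 1 ≤ c1 * ht P := by
    have h1 : 1 / c1 ≤ ht P := (Nat.le_ceil _).trans (by exact_mod_cast (by omega))
    rw [div_le_iff₀ hc1] at h1
    linarith
  have hHc3 : 1 ≤ c3 * ht P := by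
    have h1 : 1 / c3 ≤ ht P := (Nat.le_ceil _).trans (by exact_mod_cast (by omega))
    rw [div_le_iff₀ hc3] at h1
    linarith
  have hval : aeval X.ξ (expand ℤ m P) = aeval (X.ξ ^ m) P := expand_aeval m P X.ξ
  by_cases hG : ∀ k, ¬ X.S k ∣ expand ℤ m P
  · have hR : expand ℤ m P ≠ 0 := by
      intro h0
      exact hP.ne_zero ((expand_eq_zero hm).mp h0)
    have h1 := hcc1 (expand ℤ m P) hG hR (by
      rw [natDegree_expand, hPd, mul_comm])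
    have hhe : ht (expand ℤ m P) ≤ ht P := by
      apply ht_le_of
      intro i
      rw [coeff_expand hm]
      split_ifs
      · exact natAbs_coeff_le_ht P _
      · simp
    have hhe' : (ht (expand ℤ m P) : ℝ) ≤ ht P := by exact_mod_cast hhe
    rw [hval] at h1
    have hUn : 40 * (m * μ + 1) + 1 ≤ U n := by
      have h2 := hUbig n
      have h3 : m * μ ≤ m * n := Nat.mul_le_mul_left _ hμn
      omega
    calc (1 : ℝ) ≤ c1 * ht P := hHc1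
      _ ≤ (|aeval (X.ξ ^ m) P| * (ht (expand ℤ m P) : ℝ) ^ (40 * (m * μ + 1))) * ht P := by gcongr
      _ ≤ (|aeval (X.ξ ^ m) P| * (ht P : ℝ) ^ (40 * (m * μ + 1))) * ht P := by gcongr
      _ = |aeval (X.ξ ^ m) P| * (ht P : ℝ) ^ (40 * (m * μ + 1) + 1) := by ring
      _ ≤ _ := by
          have : (ht P : ℝ) ^ (40 * (m * μ + 1) + 1) ≤ (ht P : ℝ) ^ (U n) :=
            pow_le_pow_right₀ hH1 hUn
          gcongr
  · push Not at hG
    obtain ⟨k, hk⟩ := hG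
    have hSq := (X.S_props k).1
    have hSd : (X.S k).natDegree = e k + 1 := (X.S_props k).2.2.1
    obtain ⟨hdeg, g, r, p, hg0, hr0, hPg, hNE⟩ := alg_core hm hSq hP hk (by rw [hSd]; exact hcop k)
    have hek : e k = μ - 1 := by omega
    have hμe : e k + 1 = μ := by omega
    have hS0 := (X.S_irr k).ne_zero
    obtain ⟨hS, hhS⟩ : ∃ a : ℝ, a = (ht (X.S k) : ℝ) := ⟨_, rfl⟩
    have hS1 : 1 ≤ hS := by rw [hhS]; exact_mod_cast ht_pos hS0
    -- bound for S_k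
    have h1 := X.spec_lower hM hV k 1 one_ne_zero
    rw [C_1, one_mul, ← hhS, hVU, hek] at h1
    have h3 := X.ht_S_upper hV k
    rw [hek, ← hhS, ← hChd] at h3
    -- the integer r
    obtain ⟨-, -, hlead⟩ := NE_lead hm hS0
    have hc0 := NE_coeff_zero hm (X.S k)
    have hpr := X.prime k
    have hrp : ¬ X.p k ∣ r.natAbs := by
      intro hd
      have h4 : ((X.p k : ℕ) : ℤ) ∣ r := Int.natCast_dvd.mpr hd
      have h5 : ((X.p k : ℕ) : ℤ) ∣ (X.S k).coeff 0 ^ m := by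
        rw [← hc0, hNE, coeff_C_mul]
        exact h4.mul_right _
      exact W72.S_coeff_zero' X k ((Nat.prime_iff_prime_int.mp hpr).dvd_of_dvd_pow h5)
    have hlead2 : (NE m (X.S k)).leadingCoeff.natAbs = (X.N k ^ μ) ^ m * tt ^ m := by
      rw [hlead, X.lead_S, Int.natAbs_mul, Int.natAbs_pow, Int.natAbs_natCast, hek, ← htt,
        mul_pow]
      congr 3
      omega
    have hr1 : r.natAbs ∣ (X.N k ^ μ) ^ m * tt ^ m := by
      rw [← hlead2, hNE, leadingCoeff_mul, leadingCoeff_C, Int.natAbs_mul]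
      exact dvd_mul_right _ _
    have hcopr : Nat.Coprime r.natAbs ((X.N k ^ μ) ^ m) := by
      have h4 : Nat.Coprime r.natAbs (X.p k) := ((Nat.Prime.coprime_iff_not_dvd hpr).2 hrp).symm
      have h5 : Nat.Coprime r.natAbs (X.N k) := by
        unfold SData.N
        exact Nat.Coprime.pow_right _ h4
      exact Nat.Coprime.pow_right _ (Nat.Coprime.pow_right _ h5)
    have hr2 : r.natAbs ≤ tt ^ m :=
      Nat.le_of_dvd (by positivity) (hcopr.dvd_of_dvd_mul_left hr1)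
    have hrpos : 1 ≤ r.natAbs := Int.natAbs_pos.2 hr0
    have hgpos : 1 ≤ g.natAbs := Int.natAbs_pos.2 hg0
    have hhtNE : ht (NE m (X.S k)) = r.natAbs * ht p := by rw [hNE, ht_intCast_mul]
    have hhtP : ht P = g.natAbs * ht p := by rw [hPg, ht_intCast_mul]
    have hNm : (X.N k ^ μ) ^ m ≤ ht P := by
      have h4 : (X.N k ^ μ) ^ m * tt ^ m ≤ r.natAbs * ht p := by
        rw [← hhtNE, ← hlead2]
        exact natAbs_coeff_le_ht _ _
      have h5 : (X.N k ^ μ) ^ m * r.natAbs ≤ ht p * r.natAbs := by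
        calc (X.N k ^ μ) ^ m * r.natAbs ≤ (X.N k ^ μ) ^ m * tt ^ m := Nat.mul_le_mul_left _ hr2
          _ ≤ r.natAbs * ht p := h4
          _ = _ := mul_comm _ _
      have h6 : (X.N k ^ μ) ^ m ≤ ht p := Nat.le_of_mul_le_mul_right h5 hrpos
      rw [hhtP]
      exact h6.trans (Nat.le_mul_of_pos_left _ hgpos)
    have h4 : hS ^ m ≤ Ch ^ m * ht P := by
      have h5 : hS ^ m ≤ (Ch * (X.N k : ℝ) ^ (μ - 1 + 1)) ^ m := by gcongr
      refine h5.trans ?_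
      rw [mul_pow, show μ - 1 + 1 = μ by omega]
      have h6 : (((X.N k : ℝ) ^ μ) ^ m) ≤ ht P := by exact_mod_cast hNm
      gcongr
    have h5 : hS ^ (m * U (μ - 1)) ≤ (Ch ^ m) ^ (U (μ - 1)) * (ht P : ℝ) ^ (U (μ - 1)) := by
      calc hS ^ (m * U (μ - 1)) = (hS ^ m) ^ (U (μ - 1)) := by rw [← pow_mul]
        _ ≤ (Ch ^ m * ht P) ^ (U (μ - 1)) := by gcongr
        _ = _ := by rw [mul_pow]
    -- the values
    have hrR : (1 : ℝ) ≤ |(r : ℝ)| := by exact_mod_cast Int.one_le_abs hr0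
    have hgR : (1 : ℝ) ≤ |(g : ℝ)| := by exact_mod_cast Int.one_le_abs hg0
    have hrR2 : |(r : ℝ)| ≤ R0 := by
      rw [hR0d]
      have : ((r.natAbs : ℕ) : ℝ) ≤ ((tt ^ m : ℕ) : ℝ) := by exact_mod_cast hr2
      rw [Nat.cast_natAbs] at this
      push_cast at this
      exact this
    have hv1 : |aeval (X.ξ ^ m) (NE m (X.S k))| = |(r : ℝ)| * |aeval (X.ξ ^ m) p| := by
      rw [hNE, map_mul, abs_mul, aeval_C]; simp
    have hv2 : |aeval (X.ξ ^ m) P| = |(g : ℝ)| * |aeval (X.ξ ^ m) p| := by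
      rw [hPg, map_mul, abs_mul, aeval_C]; simp
    have hv3 : c2 / R0 * |aeval X.ξ (X.S k)| ≤ |aeval (X.ξ ^ m) P| := by
      have h6 := hprod k hek
      rw [hv1] at h6
      have h7 : |aeval (X.ξ ^ m) p| ≤ |aeval (X.ξ ^ m) P| := by
        rw [hv2]
        exact le_mul_of_one_le_left (abs_nonneg _) hgR
      have h8 : c2 * |aeval X.ξ (X.S k)| ≤ R0 * |aeval (X.ξ ^ m) P| :=
        h6.trans (mul_le_mul hrR2 h7 (abs_nonneg _) hR0.le)
      rw [div_mul_eq_mul_div, div_le_iff₀ hR0]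
      linarith
    have h10 : c3 ≤ |aeval (X.ξ ^ m) P| * (ht P : ℝ) ^ (U (μ - 1)) := by
      rw [hc3d, div_le_iff₀ (by positivity)]
      calc c2 / R0 = c2 / R0 * 1 := (mul_one _).symm
        _ ≤ c2 / R0 * (|aeval X.ξ (X.S k)| * hS ^ (m * U (μ - 1))) := by gcongr
        _ = (c2 / R0 * |aeval X.ξ (X.S k)|) * hS ^ (m * U (μ - 1)) := by ring
        _ ≤ |aeval (X.ξ ^ m) P| * ((Ch ^ m) ^ (U (μ - 1)) * (ht P : ℝ) ^ (U (μ - 1))) := by
            gcongr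
        _ = _ := by ring
    have h11 : U (μ - 1) + 1 ≤ U n := hU (by omega : μ - 1 < n)
    calc (1 : ℝ) ≤ c3 * ht P := hHc3
      _ ≤ (|aeval (X.ξ ^ m) P| * (ht P : ℝ) ^ (U (μ - 1))) * ht P := by gcongr
      _ = |aeval (X.ξ ^ m) P| * (ht P : ℝ) ^ (U (μ - 1) + 1) := by ring
      _ ≤ _ := by
          have : (ht P : ℝ) ^ (U (μ - 1) + 1) ≤ (ht P : ℝ) ^ (U n) :=
            pow_le_pow_right₀ hH1 h11
          gcongr

end Pool.Agent.Y821.PW
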