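import Pool.Agent.Y821.PW.F

set_option autoImplicit false
set_option linter.unusedSectionVars false

namespace Pool.Agent.Y821.PW

open Polynomial Pool.Agent Pool.Agent.Helper35

/-- If `S` divides the norm of `P` then `P` divides `S(X^m)` over the rationals. -/
lemma dvd_expand {m : ℕ} (hm : 0 < m) {S P : ℤ[X]} (hS : IrrQ S) (hP : IrrQ P)
    (hdvd : S ∣ NE m P) : P.map (Int.castRingHom ℚ) ∣ (expand ℤ m S).map (Int.castRingHom ℚ) := by
  have hζ := Complex.isPrimitiveRoot_exp m (by omega)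
  set ζ := Complex.exp (2 * Real.pi * Complex.I / m) with hζd
  have hSd : (S.map (Int.castRingHom ℚ)).degree ≠ 0 := by
    intro h
    have := natDegree_eq_zero_iff_degree_le_zero.2 h.le
    rw [natDegree_map_eq_of_injective (RingHom.injective_int _)] at this
    have := hS.natDegree_pos
    omega
  obtain ⟨a, ha⟩ := IsAlgClosed.exists_aeval_eq_zero ℂ _ hSd
  rw [aevalC_map] at ha
  obtain ⟨l, rfl⟩ := IsAlgClosed.exists_pow_nat_eq a hm
  have hE : aeval (l ^ m) (NE m P) = 0 := by
    obtain ⟨W, hW⟩ := hdvd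
    rw [hW, map_mul, ha, zero_mul]
  rw [NE_prod' hm P hζ l, Finset.prod_eq_zero_iff] at hE
  obtain ⟨i, -, hi⟩ := hE
  have h2 : (ζ ^ (i : ℕ) * l) ^ m = l ^ m := by
    rw [mul_pow, ← pow_mul, mul_comm (i : ℕ) m, pow_mul, hζ.pow_eq_one, one_pow, one_mul]
  have h3 : aeval (ζ ^ (i : ℕ) * l) (expand ℤ m S) = 0 := by
    rw [expand_aeval, h2, ha]
  have hint : IsIntegral ℚ (ζ ^ (i : ℕ) * l) := by
    rw [← isAlgebraic_iff_isIntegral]
    refine ⟨P.map (Int.castRingHom ℚ), Irreducible.ne_zero hP, by rw [aevalC_map]; exact hi⟩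
  have h4 : minpoly ℚ (ζ ^ (i : ℕ) * l) ∣ P.map (Int.castRingHom ℚ) :=
    minpoly.dvd ℚ _ (by rw [aevalC_map]; exact hi)
  have h5 : minpoly ℚ (ζ ^ (i : ℕ) * l) ∣ (expand ℤ m S).map (Int.castRingHom ℚ) :=
    minpoly.dvd ℚ _ (by rw [aevalC_map]; exact h3)
  exact ((minpoly.irreducible hint).associated_of_dvd hP h4).symm.dvd.trans h5

/-- If `S` divides the norm of `P`, and `S(0)` and the leading coefficient of `S` have suitable
valuations, then `P` is a polynomial in `X^m`. -/
lemma alg_core2 {m : ℕ} (hm : 0 < m) {S P : ℤ[X]} (hS : IrrQ S) (hP : IrrQ P)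
    (hdvd : S ∣ NE m P) {p : ℕ} (hp : p.Prime) {A : ℕ} {b : ℤ} (hb : ¬ (p : ℤ) ∣ b)
    (hlead : S.leadingCoeff = (p : ℤ) ^ A * b) (h0 : ¬ (p : ℤ) ∣ S.coeff 0)
    (hA : Nat.Coprime A m) : ∃ F : ℤ[X], expand ℤ m F = P := by
  have hζ := Complex.isPrimitiveRoot_exp m (by omega)
  set ζ := Complex.exp (2 * Real.pi * Complex.I / m) with hζd
  have hS0 := hS.ne_zero
  have hP0 := hP.ne_zero
  have hPS := dvd_expand hm hS hP hdvd
  obtain ⟨hE0, hEdeg, hElead⟩ := NE_lead hm hP0
  have hEc0 := NE_coeff_zero hm P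
  obtain ⟨E, hE⟩ : ∃ E, E = NE m P := ⟨_, rfl⟩
  rw [← hE] at hE0 hEdeg hElead hEc0 hdvd
  have hroot : ∀ a : ℂ, aeval a P = 0 → aeval (a ^ m) S = 0 := by
    intro a ha
    obtain ⟨W, hW⟩ := hPS
    rw [← expand_aeval, ← aevalC_map, hW, map_mul, aevalC_map, ha, zero_mul]
  have hEq0 : E.map (Int.castRingHom ℚ) ≠ 0 :=
    (Polynomial.map_ne_zero_iff (RingHom.injective_int _)).mpr hE0
  have hdvdF : ∀ F : ℚ[X], F ∣ E.map (Int.castRingHom ℚ) → F.natDegree ≠ 0 →
      S.map (Int.castRingHom ℚ) ∣ F := by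
    intro F hF hFd
    have hFd' : F.degree ≠ 0 := fun h => hFd (natDegree_eq_of_degree_eq_some h)
    obtain ⟨b, hb⟩ := IsAlgClosed.exists_aeval_eq_zero ℂ F hFd'
    have hEb : aeval b E = 0 := by
      obtain ⟨W, hW⟩ := hF
      rw [← aevalC_map, hW, map_mul, hb, zero_mul]
    obtain ⟨l, rfl⟩ := IsAlgClosed.exists_pow_nat_eq b hm
    rw [hE, NE_prod' hm P hζ l, Finset.prod_eq_zero_iff] at hEb
    obtain ⟨i, -, hi⟩ := hEb
    have h1 := hroot _ hi
    have h2 : (ζ ^ (i : ℕ) * l) ^ m = l ^ m := by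
      rw [mul_pow, ← pow_mul, mul_comm (i : ℕ) m, pow_mul, hζ.pow_eq_one, one_pow, one_mul]
    rw [h2] at h1
    have hint : IsIntegral ℚ (l ^ m) := by
      rw [← isAlgebraic_iff_isIntegral]
      refine ⟨F, ?_, hb⟩
      rintro rfl
      simp at hFd
    have h3 : minpoly ℚ (l ^ m) ∣ S.map (Int.castRingHom ℚ) :=
      minpoly.dvd ℚ _ (by rw [aevalC_map]; exact h1)
    have h4 : minpoly ℚ (l ^ m) ∣ F := minpoly.dvd ℚ _ hb
    exact ((minpoly.irreducible hint).associated_of_dvd hS h3).symm.dvd.trans h4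
  have hSnu : ¬ IsUnit (S.map (Int.castRingHom ℚ)) := hS.not_isUnit
  obtain ⟨t, F, hF1, hF2⟩ := (FiniteMultiplicity.of_not_isUnit hSnu hEq0).exists_eq_pow_mul_and_not_dvd
    |> fun h => (⟨_, h⟩ : ∃ t : ℕ, ∃ F : ℚ[X], E.map (Int.castRingHom ℚ) =
      (S.map (Int.castRingHom ℚ)) ^ t * F ∧ ¬ (S.map (Int.castRingHom ℚ)) ∣ F)
  have hFd : F.natDegree = 0 := by
    by_contra h
    exact hF2 (hdvdF F (by rw [hF1]; exact dvd_mul_left _ _) h)
  have hF0 : F ≠ 0 := by
    rintro rfl
    rw [mul_zero] at hF1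
    exact hEq0 hF1
  have hdeg : P.natDegree = t * S.natDegree := by
    have h1 := congrArg natDegree hF1
    rw [natDegree_mul (pow_ne_zero _ (Irreducible.ne_zero hS)) hF0, natDegree_pow, hFd, add_zero,
      natDegree_map_eq_of_injective (RingHom.injective_int _),
      natDegree_map_eq_of_injective (RingHom.injective_int _), hEdeg] at h1
    exact h1
  have hPpos := hP.natDegree_pos
  have ht0 : t ≠ 0 := by rintro rfl; omega
  -- the valuations
  have hFC : F = C (F.coeff 0) := eq_C_of_natDegree_eq_zero hFd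
  have hid : E.leadingCoeff * S.coeff 0 ^ t = S.leadingCoeff ^ t * E.coeff 0 := by
    have h1 := congrArg leadingCoeff hF1
    have h2 := congrArg (eval (0 : ℚ)) hF1
    rw [leadingCoeff_mul, leadingCoeff_pow,
      leadingCoeff_map_of_injective (RingHom.injective_int _),
      leadingCoeff_map_of_injective (RingHom.injective_int _)] at h1
    rw [eval_mul, eval_pow, ← coeff_zero_eq_eval_zero, ← coeff_zero_eq_eval_zero,
      ← coeff_zero_eq_eval_zero, coeff_map, coeff_map] at h2
    have h3 : F.leadingCoeff = F.coeff 0 := by rw [leadingCoeff, hFd]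
    rw [h3] at h1
    simp only [eq_intCast] at h1 h2
    have h4 : ((E.leadingCoeff * S.coeff 0 ^ t : ℤ) : ℚ) =
        ((S.leadingCoeff ^ t * E.coeff 0 : ℤ) : ℚ) := by
      push_cast
      rw [h1, h2]; ring
    exact_mod_cast h4
  have hidN : P.leadingCoeff.natAbs ^ m * (S.coeff 0).natAbs ^ t =
      S.leadingCoeff.natAbs ^ t * (P.coeff 0).natAbs ^ m := by
    have h1 := congrArg Int.natAbs hid
    rw [Int.natAbs_mul, Int.natAbs_mul, hElead, hEc0, Int.natAbs_pow, Int.natAbs_pow,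
      Int.natAbs_pow] at h1
    exact h1
  have hb' : ¬ p ∣ b.natAbs := fun hd => hb (Int.natCast_dvd.mpr hd)
  have h0' : ¬ p ∣ (S.coeff 0).natAbs := fun hd => h0 (Int.natCast_dvd.mpr hd)
  have hl0 : P.leadingCoeff.natAbs ≠ 0 := by simpa using hP0
  have hs0 : (S.coeff 0).natAbs ≠ 0 := fun h => h0' (by rw [h]; exact dvd_zero _)
  have hSl0 : S.leadingCoeff.natAbs ≠ 0 := by simpa using hS0
  have hc0 : (P.coeff 0).natAbs ≠ 0 := by
    intro h
    rw [h, zero_pow (by omega), mul_zero] at hidN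
    rcases mul_eq_zero.1 hidN with h1 | h1
    · exact hl0 (pow_eq_zero_iff (by omega) |>.1 h1)
    · exact hs0 (pow_eq_zero_iff ht0 |>.1 h1)
  have hmt : m ∣ t := by
    have h1 := congrArg (fun x => x.factorization p) hidN
    have hSl : S.leadingCoeff.natAbs = p ^ A * b.natAbs := by
      rw [hlead, Int.natAbs_mul, Int.natAbs_pow, Int.natAbs_natCast]
    have hb0 : b.natAbs ≠ 0 := fun h => hb' (by rw [h]; exact dvd_zero _)
    rw [Nat.factorization_mul (pow_ne_zero _ hl0) (pow_ne_zero _ hs0),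
      Nat.factorization_mul (pow_ne_zero _ hSl0) (pow_ne_zero _ hc0), Nat.factorization_pow,
      Nat.factorization_pow, Nat.factorization_pow, Nat.factorization_pow, hSl,
      Nat.factorization_mul (pow_ne_zero _ hp.ne_zero) hb0, Nat.factorization_pow] at h1
    simp only [Finsupp.coe_add, Finsupp.coe_smul, Pi.add_apply, Pi.smul_apply, smul_eq_mul,
      hp.factorization_self, mul_one, Nat.factorization_eq_zero_of_not_dvd hb',
      Nat.factorization_eq_zero_of_not_dvd h0', add_zero, mul_zero] at h1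
    have h2 : m ∣ t * A := by
      have h3 : m ∣ t * A + m * (P.coeff 0).natAbs.factorization p := by
        rw [← h1]; exact dvd_mul_right _ _
      exact (Nat.dvd_add_left (dvd_mul_right _ _)).1 h3
    exact hA.symm.dvd_of_dvd_mul_right h2
  -- the degrees
  have hexp0 : (expand ℤ m S).map (Int.castRingHom ℚ) ≠ 0 := by
    rw [Polynomial.map_ne_zero_iff (RingHom.injective_int _)]
    intro h
    exact hS0 ((expand_eq_zero hm).mp h)
  have hexpd : ((expand ℤ m S).map (Int.castRingHom ℚ)).natDegree = S.natDegree * m := by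
    rw [natDegree_map_eq_of_injective (RingHom.injective_int _), natDegree_expand]
  have hle : P.natDegree ≤ S.natDegree * m := by
    have h1 := natDegree_le_of_dvd hPS hexp0
    rwa [hexpd, natDegree_map_eq_of_injective (RingHom.injective_int _)] at h1
  have htm : m ≤ t := Nat.le_of_dvd (by omega) hmt
  have heq : P.natDegree = S.natDegree * m := by
    apply le_antisymm hle
    rw [hdeg, mul_comm]
    exact Nat.mul_le_mul_right _ htm
  obtain ⟨W, hW⟩ := hPS
  have hW0 : W ≠ 0 := by rintro rfl; rw [mul_zero] at hW; exact hexp0 hW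
  have hWd : W.natDegree = 0 := by
    have h1 := congrArg natDegree hW
    rw [natDegree_mul (Irreducible.ne_zero hP) hW0, hexpd,
      natDegree_map_eq_of_injective (RingHom.injective_int _)] at h1
    omega
  have hWc : W = C (W.coeff 0) := eq_C_of_natDegree_eq_zero hWd
  have hw0 : W.coeff 0 ≠ 0 := by
    intro h
    rw [h, C_0] at hWc
    exact hW0 hWc
  have hzero : ∀ i, ¬ m ∣ i → P.coeff i = 0 := by
    intro i hi
    have h1 := congrArg (fun Q : ℚ[X] => Q.coeff i) hW
    rw [hWc] at h1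
    simp only [coeff_map, coeff_mul_C] at h1
    rw [coeff_expand hm, if_neg hi, map_zero] at h1
    rcases mul_eq_zero.1 h1.symm with h2 | h2
    · simpa using h2
    · exact absurd h2 hw0
  refine ⟨contract m P, ?_⟩
  ext i
  rw [coeff_expand hm]
  split_ifs with h
  · rw [coeff_contract (by omega), Nat.div_mul_cancel h]
  · exact (hzero i h).symm

end Pool.Agent.Y821.PW
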